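import Pool.Agent.Run7.h555.Q4.Q

/-!
The leading term of the combination of the values of `Gq`, the second part.
-/

set_option autoImplicit false
set_option linter.unusedSectionVars false

open Filter Complex
open scoped Topology PeriodPair
open H667R3 hiding sq
open Pool.Agent.TH936.CM Pool.Agent.W192.HK

namespace Run7.h555.Q4

open Pool.Agent.Y699
open H385 (ZI RQ im1 nrm)
open Pool.Agent.H304R3.HK (tc)
open Pool.Agent.W164.RC (tc_mul tc_star two2 prim_iff_dvd)
open Pool.Agent.H304R2.EC.A1 (prim prim_mul prim_cancel prim_one prim_norm_odd prim_star eq_one_of_prim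
  norm_def' re_mul' im_mul' eq_of_dvd prim_ne_zero)
open Pool.Agent.Run7.h135.Q4L (W1 W1_of_dvd W1_of_not WW WW_per QG)

variable {L : PeriodPair} {Ω : ℂ} {ι : Type} [DecidableEq ι] {pr : ι → ZI}

/-- an element which is minus one modulo one prime and one modulo the others -/
lemma exists_mu (hp : PF pr) {V : Finset ι} {i : ι} (_hi : i ∈ V) : ∃ m : ZI,
    pr i ∣ m + 1 ∧ ∀ j ∈ V.erase i, pr j ∣ m - 1 := by
  have hcop : IsCoprime (pr i) (∏ j ∈ V.erase i, pr j) := by
    refine IsCoprime.prod_right fun j hj => ?_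
    exact (hp.pp i).cop (hp.pp j) (fun h' => (Finset.mem_erase.1 hj).1 (hp.inj h').symm)
  obtain ⟨a, b, hab⟩ := hcop
  refine ⟨1 - 2 * (b * ∏ j ∈ V.erase i, pr j), ⟨2 * a, ?_⟩, fun j hj => ?_⟩
  · linear_combination (-2) * hab
  · have h1 : pr j ∣ ∏ j ∈ V.erase i, pr j := Finset.dvd_prod_of_mem _ hj
    have e : (1 : ZI) - 2 * (b * ∏ j ∈ V.erase i, pr j) - 1 =
        (∏ j ∈ V.erase i, pr j) * (-2 * b) := by ring
    rw [e]
    exact h1.mul_right _

open Classical in
/-- the number of classes is divisible by four if there are two primes -/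
lemma card_many (hp : PF pr) {V : Finset ι} (hV : 2 ≤ V.card) [Fintype (RQ (DD pr V))] :
    4 ∣ (Finset.univ.filter fun q : RQ (DD pr V) => C0 pr V q.out).card := by
  obtain ⟨i, hi, j, hj, hij⟩ := Finset.one_lt_card.1 (by omega : 1 < V.card)
  have hVn : V.Nonempty := ⟨i, hi⟩
  obtain ⟨m, hm1, hm2⟩ := exists_mu hp hi
  have hji : j ∈ V.erase i := Finset.mem_erase.2 ⟨fun h => hij h.symm, hj⟩
  -- the square of `m`
  have hmm : DD pr V ∣ m * m - 1 := by
    have e : DD pr V = pr i * ∏ k ∈ V.erase i, pr k := by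
      unfold DD
      rw [Finset.mul_prod_erase _ _ hi]
    have e2 : m * m - 1 = (m + 1) * (m - 1) := by ring
    rw [e, e2]
    refine mul_dvd_mul hm1 ?_
    refine Finset.prod_dvd_of_coprime ?_ fun k hk => hm2 k hk
    intro a _ b _ hab
    exact (hp.pp a).cop (hp.pp b) (fun h' => hab (hp.inj h'))
  set M : RQ (DD pr V) := Ideal.Quotient.mk _ m with hM
  have hM2 : M * M = 1 := by
    rw [hM, ← map_mul, ← map_one (Ideal.Quotient.mk (Ideal.span {DD pr V})), mk_eq_mk]
    exact hmm
  have hmem : ∀ q : RQ (DD pr V), C0 pr V (M * q).out ↔ C0 pr V q.out := by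
    intro q
    have h1 : DD pr V ∣ (M * q).out - m * q.out := by
      rw [← mk_eq_mk, Ideal.Quotient.mk_out, map_mul, Ideal.Quotient.mk_out]
    rw [C0_per h1]
    unfold C0
    refine forall₂_congr fun k hk => ?_
    have h2 : qr (pr k) (8 * (m * q.out)) = qr (pr k) (8 * q.out) := by
      have e : (8 : ZI) * (m * q.out) = m * (8 * q.out) := by ring
      rw [e, qr_mul (hp.pp k)]
      have h3 : qr (pr k) m = 1 := by
        by_cases hk' : k = i
        · subst hk'
          have h4 : pr k ∣ m - (-1) := by rwa [sub_neg_eq_add]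
          rw [qr_per h4, qr_neg_one (hp.pp k)]
        · rw [qr_per (hm2 k (Finset.mem_erase.2 ⟨hk', hk⟩)), qr_one (hp.pp k)]
      rw [h3, one_mul]
    rw [h2]
  refine quad_card (fun q => -q) (fun q => M * q) (fun q => neg_neg q)
    (fun q => by rw [← mul_assoc, hM2, one_mul]) (fun q => by ring) _ ?_ ?_ ?_ ?_ ?_
  · intro q hq
    rw [Finset.mem_filter] at hq ⊢
    refine ⟨Finset.mem_univ _, ?_⟩
    rw [C0_per (out_neg _ q), C0_neg hp]
    exact hq.2
  · intro q hq
    rw [Finset.mem_filter] at hq ⊢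
    exact ⟨Finset.mem_univ _, (hmem q).2 hq.2⟩
  · intro q hq
    exact neg_ne hp hVn (Finset.mem_filter.1 hq).2
  · intro q hq hqq
    have hq' := (Finset.mem_filter.1 hq).2
    have h1 : DD pr V ∣ (m - 1) * q.out := by
      rw [← mk_eq_zero, map_mul, Ideal.Quotient.mk_out, map_sub, map_one, sub_mul, one_mul, sub_eq_zero]
      exact hqq
    have h2 := (dvd_DD hi).trans h1
    rcases (hp.pp i).pr.dvd_or_dvd h2 with h3 | h3
    · have h4 := dvd_sub hm1 h3
      have e : m + 1 - (m - 1) = 2 := by ring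
      rw [e] at h4
      exact not_dvd_two (hp.pp i) h4
    · exact C0_not_dvd hq' hi h3
  · intro q hq hqq
    have hq' := (Finset.mem_filter.1 hq).2
    have h1 : DD pr V ∣ (m + 1) * q.out := by
      rw [← mk_eq_zero, map_mul, Ideal.Quotient.mk_out, map_add, map_one, add_mul, one_mul]
      have : -q = M * q := hqq
      rw [← hM, ← this, neg_add_cancel]
    have h2 := (dvd_DD hj).trans h1
    rcases (hp.pp j).pr.dvd_or_dvd h2 with h3 | h3
    · have h4 := dvd_sub h3 (hm2 j hji)
      have e : m + 1 - (m - 1) = 2 := by ring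
      rw [e] at h4
      exact not_dvd_two (hp.pp j) h4
    · exact C0_not_dvd hq' hj h3

section val

variable {Γ : Type*} [LinearOrderedCommGroupWithZero Γ] {v : Valuation ℂ Γ} (h2 : v 2 < 1)

lemma v_sub_I : v (1 - I) = v (1 + I) := by
  have e : (1 - I : ℂ) = -(I * (1 + I)) := by linear_combination I_sq
  rw [e, Valuation.map_neg, map_mul, v_I, one_mul]

/-- the local weights at a unit -/
lemma W1_unit {π : ZI} (h : PP π) {a : ZI} (ha : qr π a = -1) :
    v (W1 π a / (1 + I) - 1) ≤ v (1 + I) := by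
  have hl := one_I_ne
  have hd : ¬ π ∣ a := by
    intro h'
    rw [qr_zero_iff.2 h'] at ha
    norm_num at ha
  have hs := q4_sq h a
  rw [ha] at hs
  rw [W1_of_not hd]
  rcases (q4_val π a).list with h1 | h1 | h1 | h1 | h1 <;> rw [h1] at hs ⊢
  · exact absurd hs (by decide)
  · exact absurd hs (by decide)
  · rw [tc_im1, div_self hl, sub_self, map_zero]
    exact zero_le
  · exact absurd hs (by decide)
  · rw [tc_neg, tc_im1]
    have e : (1 + -I) / (1 + I) - 1 = -(1 + I) := by
      rw [div_sub_one hl, div_eq_iff hl]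
      linear_combination I_sq
    rw [e, Valuation.map_neg]

lemma W1_non {π : ZI} (h : PP π) {a : ZI} (ha : qr π a ≠ -1) :
    v (W1 π a / (1 + I)) ≤ v (1 + I) := by
  have hl := one_I_ne
  by_cases hd : π ∣ a
  · rw [W1_of_dvd hd, zero_div, map_zero]
    exact zero_le
  have h5 : qr π a = 1 := (qr_cases hd).resolve_right ha
  have hs := q4_sq h a
  rw [h5] at hs
  rw [W1_of_not hd]
  rcases (q4_val π a).list with h1 | h1 | h1 | h1 | h1 <;> rw [h1] at hs ⊢
  · exact absurd hs (by decide)
  · rw [tc_one]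
    have e : (1 + 1) / (1 + I) = 1 - I := by
      rw [div_eq_iff hl]
      linear_combination I_sq
    rw [e, v_sub_I]
  · exact absurd hs (by decide)
  · rw [tc_neg, tc_one, add_neg_cancel, zero_div, map_zero]
    exact zero_le
  · exact absurd hs (by decide)

include h2

lemma W1_le {π : ZI} (h : PP π) (a : ZI) : v (W1 π a / (1 + I)) ≤ 1 := by
  have hg := (v_pi_lt h2).le
  by_cases ha : qr π a = -1
  · have h1 := (W1_unit (v := v) h ha).trans hg
    have e : W1 π a / (1 + I) = (W1 π a / (1 + I) - 1) + 1 := by ring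
    rw [e]
    exact v.map_add_le h1 (by rw [map_one])
  · exact (W1_non h ha).trans hg

lemma prod_unit {f : ι → ℂ} (s : Finset ι) (hf : ∀ i ∈ s, v (f i - 1) ≤ v (1 + I)) :
    v (∏ i ∈ s, f i - 1) ≤ v (1 + I) := by
  have hg := (v_pi_lt h2).le
  induction s using Finset.induction_on with
  | empty => simp
  | insert i s hi ih =>
    rw [Finset.prod_insert hi]
    have h1 := hf i (Finset.mem_insert_self _ _)
    have h3 := ih fun j hj => hf j (Finset.mem_insert_of_mem hj)
    have h4 : v (∏ i ∈ s, f i) ≤ 1 := by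
      have e : ∏ i ∈ s, f i = (∏ i ∈ s, f i - 1) + 1 := by ring
      rw [e]
      exact v.map_add_le (h3.trans hg) (by rw [map_one])
    have e : f i * ∏ i ∈ s, f i - 1 = (f i - 1) * (∏ i ∈ s, f i) + (∏ i ∈ s, f i - 1) := by ring
    rw [e]
    refine v.map_add_le ?_ h3
    rw [map_mul]
    exact (mul_le_of_le_one_right' h4).trans h1

/-- the weights -/
lemma WW_C0 (hp : PF pr) {V : Finset ι} {t : ZI} (ht : C0 pr V t) :
    v (WW pr V t / (1 + I) ^ V.card - 1) ≤ v (1 + I) := by
  have e : WW pr V t / (1 + I) ^ V.card = ∏ i ∈ V, (W1 (pr i) (8 * t) / (1 + I)) := by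
    unfold WW
    rw [Finset.prod_div_distrib, Finset.prod_const]
  rw [e]
  exact prod_unit h2 V fun i hi => W1_unit (hp.pp i) (ht i hi)

lemma WW_not (hp : PF pr) {V : Finset ι} {t : ZI} (ht : ¬ C0 pr V t) :
    v (WW pr V t / (1 + I) ^ V.card) ≤ v (1 + I) := by
  have e : WW pr V t / (1 + I) ^ V.card = ∏ i ∈ V, (W1 (pr i) (8 * t) / (1 + I)) := by
    unfold WW
    rw [Finset.prod_div_distrib, Finset.prod_const]
  unfold C0 at ht
  push Not at ht
  obtain ⟨i, hi, hne⟩ := ht
  rw [e, ← Finset.mul_prod_erase _ _ hi, map_mul]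
  have h3 : v (∏ j ∈ V.erase i, W1 (pr j) (8 * t) / (1 + I)) ≤ 1 := by
    rw [map_prod]
    exact Finset.prod_le_one' fun j _ => W1_le h2 (hp.pp j) _
  exact (mul_le_of_le_one_right' h3).trans (W1_non (hp.pp i) hne)

open Classical in
lemma WW_C0' (hp : PF pr) (V : Finset ι) (t : ZI) :
    v (WW pr V t / (1 + I) ^ V.card - (if C0 pr V t then 1 else 0)) ≤ v (1 + I) := by
  by_cases ht : C0 pr V t
  · rw [if_pos ht]; exact WW_C0 h2 hp ht
  · rw [if_neg ht, sub_zero]; exact WW_not h2 hp ht

lemma zq_neg_mem (h : GLat L Ω) {D : ZI} (hD0 : D ≠ 0) (q : RQ D) :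
    Ω / 8 + zq Ω D (-q).out - (Ω / 8 - zq Ω D q.out) ∈ L.lattice := by
  obtain ⟨c, hc⟩ := out_neg D q
  refine (mem_lat h.lat).2 ⟨c, ?_⟩
  have h6 := congrArg tc hc
  rw [tc_sub, tc_mul, tc_neg] at h6
  have hDc := tc_ne hD0
  unfold zq
  field_simp
  linear_combination (8 * Ω) * h6

open Classical in
/-- **the leading term of the combination** -/
theorem QG_card (h : GS L Ω) (hp : PF pr) {V : Finset ι} (hV : V.Nonempty) [Fintype (RQ (DD pr V))] :
    Cg v (QG (Gq L) Ω pr V / (1 + I) ^ V.card / Gq L (Ω / 8))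
      (uu (((Finset.univ.filter fun q : RQ (DD pr V) => C0 pr V q.out).card / 2 : ℕ) : ZMod 2)) := by
  have hD := DD_prim hp V
  have hD0 := DD_ne hp V
  have hg0 := v_pi_ne (v := v)
  have hl := one_I_ne
  have hκ := kap_ne h2 h
  set G : RQ (DD pr V) → ℂ := fun q => Gq L (Ω / 8 + zq Ω (DD pr V) q.out) / Gq L (Ω / 8) with hG
  have e : QG (Gq L) Ω pr V / (1 + I) ^ V.card / Gq L (Ω / 8) =
      ∑ q : RQ (DD pr V), (WW pr V q.out / (1 + I) ^ V.card - (if C0 pr V q.out then 1 else 0)) * G q +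
      ∑ q ∈ Finset.univ.filter (fun q : RQ (DD pr V) => C0 pr V q.out), G q := by
    rw [Finset.sum_filter, ← Finset.sum_add_distrib]
    unfold QG
    rw [Finset.sum_div, Finset.sum_div]
    refine Finset.sum_congr rfl fun q _ => ?_
    simp only [hG]
    split_ifs <;> ring
  rw [e]
  have h3 : Cg v (∑ q : RQ (DD pr V),
      (WW pr V q.out / (1 + I) ^ V.card - (if C0 pr V q.out then 1 else 0)) * G q) 0 := by
    apply Cg.zero
    refine Valuation.map_sum_lt v one_ne_zero fun q _ => ?_
    by_cases hq : DD pr V ∣ q.out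
    · obtain ⟨i, hi⟩ := hV
      have h4 : pr i ∣ 8 * q.out := ((dvd_DD hi).trans hq).mul_left 8
      have h5 : WW pr V q.out = 0 := Finset.prod_eq_zero hi (W1_of_dvd h4)
      have h6 : ¬ C0 pr V q.out := fun h' => C0_not_dvd h' hi ((dvd_DD hi).trans hq)
      rw [h5, if_neg h6, zero_div, sub_zero, zero_mul, map_zero]
      exact zero_lt_one
    · have hO := zq_OT h.g hD hq
      have h4 := Gq_small h2 h hO
      have h5 := WW_C0' h2 hp V q.out
      set A := WW pr V q.out / (1 + I) ^ V.card - (if C0 pr V q.out then 1 else 0)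
      have e : A * G q = (A / (1 + I)) * ((1 + I) * Gq L (Ω / 8 + zq Ω (DD pr V) q.out) /
          Gq L (Ω / 8)) := by
        simp only [hG]
        field_simp
      rw [e, map_mul]
      have h6 : v (A / (1 + I)) ≤ 1 := by
        rw [map_div₀]
        exact div_le_one_of_le₀ h5 zero_le
      exact lt_of_le_of_lt (mul_le_of_le_one_left' h6) h4
  have h4 := pair_cg h2 (fun q : RQ (DD pr V) => -q) (fun q => neg_neg q) G
    (Finset.univ.filter (fun q : RQ (DD pr V) => C0 pr V q.out)) (fun q hq => by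
      rw [Finset.mem_filter] at hq ⊢
      refine ⟨Finset.mem_univ _, ?_⟩
      rw [C0_per (out_neg _ q), C0_neg hp]
      exact hq.2) (fun q hq => neg_ne hp hV (Finset.mem_filter.1 hq).2) (fun q hq => by
      have hq' := (Finset.mem_filter.1 hq).2
      have hO : OT L (zq Ω (DD pr V) q.out) := by
        apply zq_OT h.g hD
        intro h'
        obtain ⟨i, hi⟩ := hV
        exact C0_not_dvd hq' hi ((dvd_DD hi).trans h')
      obtain ⟨-, -, -, h5⟩ := Gq_val h2 h hO
      simp only [hG]
      rw [Gq_per (zq_neg_mem h2 h.g hD0 q), ← add_div]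
      exact h5)
  have h5 := h3.add h4
  rwa [zero_add] at h5

end val

end Run7.h555.Q4
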