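import Pool.Agent.Run7.h135.Q4B
import Pool.Agent.Run7.h555.Q4.R

/-!
The hypotheses of the recursion for the function `Gq`.
-/

set_option autoImplicit false
set_option linter.unusedSectionVars false

open Filter Complex
open scoped Topology PeriodPair
open H667R3 hiding sq
open Pool.Agent.TH936.CM Pool.Agent.W192.HK

namespace Run7.h555.Q4

open Pool.Agent.Y699
open H385 (ZI RQ im1 nrm)
open Pool.Agent.H304R3.HK (tc)
open Pool.Agent.W164.RC (tc_mul tc_star two2 prim_iff_dvd)
open Pool.Agent.H304R2.EC.A1 (prim prim_mul prim_cancel prim_one prim_norm_odd prim_star eq_one_of_prim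
  norm_def' re_mul' im_mul' eq_of_dvd prim_ne_zero)
open Pool.Agent.Run7.h135.Q4L (W1 W1_of_dvd W1_of_not WW WW_per QG Lim8 FF)

variable {L : PeriodPair} {Ω : ℂ} {ι : Type} [DecidableEq ι] {pr : ι → ZI}

theorem lim8' (h : GS L Ω) : Lim8 (Gq L) L Ω := fun _ hz => lim8 h hz

section val

variable {Γ : Type*} [LinearOrderedCommGroupWithZero Γ] {v : Valuation ℂ Γ} (h2 : v 2 < 1)

include h2

/-- **the leading term** -/
theorem QG_cg (h : GS L Ω) (hp : PF pr) : ∀ (V : Finset ι) [Fintype (RQ (DD pr V))],
    Cg v (QG (Gq L) Ω pr V / (1 + I) ^ V.card / Gq L (Ω / 8)) (uu (FF (wt pr) V)) := by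
  classical
  intro V inst
  have hκ := kap_ne h2 h
  unfold FF
  rcases V.eq_empty_or_nonempty with rfl | hV
  · rw [if_pos Finset.card_empty, uu_one]
    have hD1 : DD pr (∅ : Finset ι) = 1 := Finset.prod_empty
    have hsub : Subsingleton (RQ (DD pr (∅ : Finset ι))) := by
      rw [Ideal.Quotient.subsingleton_iff, hD1]
      exact Ideal.span_singleton_one
    have hcard : (Finset.univ : Finset (RQ (DD pr (∅ : Finset ι)))) = {0} := by
      ext x
      simp [Subsingleton.elim x 0]
    have e1 : WW pr (∅ : Finset ι) (0 : RQ (DD pr (∅ : Finset ι))).out = 1 := by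
      unfold WW
      simp
    unfold QG
    rw [hcard, Finset.sum_singleton, e1, one_mul, Finset.card_empty, pow_zero, div_one]
    have h3 : Gq L (Ω / 8 + zq Ω (DD pr ∅) (0 : RQ (DD pr (∅ : Finset ι))).out) = Gq L (Ω / 8) := by
      apply Gq_per
      rw [add_sub_cancel_left]
      refine (mem_lat h.g.lat).2 ⟨(0 : RQ (DD pr (∅ : Finset ι))).out, ?_⟩
      unfold zq
      rw [hD1, tc_one, div_one]
    rw [h3, div_self hκ]
    exact Cg_one
  · have h0 := hV.card_pos
    rw [if_neg (by omega)]
    have h3 := QG_card h2 h hp hV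
    rcases Nat.lt_or_ge V.card 2 with hc | hc
    · have hc1 : V.card = 1 := by omega
      obtain ⟨i, rfl⟩ := Finset.card_eq_one.1 hc1
      rw [if_pos hc1, Finset.sum_singleton]
      have hD1 : DD pr ({i} : Finset ι) = pr i := Finset.prod_singleton _ _
      have key : ∀ (D : ZI) (hD : D = pr i) (inst : Fintype (RQ D)),
          2 * (Finset.univ.filter fun q : RQ D => C0 pr {i} q.out).card = nrm (pr i) - 1 := by
        intro D hD inst
        subst hD
        rw [← card_one (hp.pp i)]
        congr 2
        ext q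
        simp [C0]
      have h4 := key _ hD1 inst
      have h5 := (hp.pp i).norm_mod
      have h6 := nrm_cast (pr i)
      have h7 := (hp.pp i).five_le
      set c := (Finset.univ.filter fun q : RQ (DD pr {i}) => C0 pr {i} q.out).card
      have h8 : ((c / 2 : ℕ) : ZMod 2) = wt pr i := by
        unfold wt
        split_ifs with h9
        · have h10 : c / 2 % 2 = 1 := by omega
          have h11 : ((c / 2 : ℕ) : ZMod 2) = ((1 : ℕ) : ZMod 2) := by
            rw [ZMod.natCast_eq_natCast_iff']
            exact h10
          rw [h11, Nat.cast_one]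
        · have h10 : c / 2 % 2 = 0 := by omega
          have h11 : ((c / 2 : ℕ) : ZMod 2) = ((0 : ℕ) : ZMod 2) := by
            rw [ZMod.natCast_eq_natCast_iff']
            exact h10
          rw [h11, Nat.cast_zero]
      rw [← h8]
      exact h3
    · rw [if_neg (by omega)]
      obtain ⟨k, hk⟩ := card_many hp hc
      rw [hk] at h3
      have h4 : ((4 * k / 2 : ℕ) : ZMod 2) = 0 := by
        have e : 4 * k / 2 = 2 * k := by omega
        rw [e]
        push_cast
        have : (2 : ZMod 2) = 0 := by decide
        rw [this, zero_mul]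
      rwa [h4] at h3

end val

end Run7.h555.Q4
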