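import Pool.Agent.Run7.h555.Q4.Z1
import Pool.Agent.Run7.h135.Q4D
import Pool.Agent.Y698.Re

/-!
The valuations above two of the algebraic part of the central value of `y² = x³ + 2 m x`.
-/

set_option autoImplicit false
set_option linter.unusedSectionVars false

open Filter Complex
open scoped Topology PeriodPair
open H667R3 hiding sq
open Pool.Agent.TH936.CM Pool.Agent.W192.HK

namespace Run7.h555.Q4

open Pool.Agent.Y699
open H385 (ZI RQ im1 nrm)
open Pool.Agent.H304R3.HK (tc LH)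
open Pool.Agent.H304R2.EC.A1 (prim)
open Pool.Agent.Y715.Om (Om)
open Pool.Agent.Run7.h135.Q4L (Dx Dx_one XQ cq Mq Mq_cg isLFun exists_lim exists_lim_cq LQ_eq FF QG cqt_empty
  sum_wt_zero)
open Run7.h26.CN (prm prm_PF prm_DD wt_prm em_add)
open Run7.h843.Desc (Nsg)

section alg

variable {ι : Type*} [Fintype ι] [DecidableEq ι]

/-- a kernel vector -/
theorem Dx_zero (x : ι → ZMod 2) (e : ι → ι → ZMod 2) (he : ∀ v, e v v = 0) {V : Finset ι}
    (z : ι → ZMod 2) (hz : ∀ v ∈ V, ∑ u ∈ V, e u v * (z u + z v) + x v * z v = 0)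
    (hne : ∃ v ∈ V, z v ≠ 0) : Dx x e V = 0 := by
  classical
  unfold Dx
  set y : ι → ZMod 2 := fun v => if v ∈ V then z v else 0 with hy
  refine Matrix.exists_vecMul_eq_zero_iff.1 ⟨y, ?_, ?_⟩
  · obtain ⟨v, hv, h⟩ := hne
    intro h0
    apply h
    have := congrFun h0 v
    simpa [hy, hv] using this
  · funext v
    rw [Matrix.vecMul, dotProduct, Pi.zero_apply]
    by_cases hv : v ∈ V
    · rw [← hz v hv]
      have h4 : ∀ u, y u * Ff.MM x e V V u v =
          (if u ∈ V then e u v * z u else 0) + (if u = v then (x v + ∑ u ∈ V, e u v) * z v else 0) := by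
        intro u
        unfold Ff.MM Ff.dg
        rw [if_pos hv]
        by_cases huv : u = v
        · subst huv
          rw [if_pos rfl, if_pos rfl, he, hy]
          simp [hv, mul_comm]
        · rw [if_neg huv, if_neg huv, hy]
          simp only
          split_ifs <;> ring
      simp_rw [h4, mul_add]
      rw [Finset.sum_add_distrib, Finset.sum_add_distrib, Finset.sum_ite_eq', if_pos (Finset.mem_univ v),
        ← Finset.sum_mul, Finset.sum_ite_mem, Finset.univ_inter]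
      ring
    · refine Finset.sum_eq_zero fun u _ => ?_
      unfold Ff.MM
      rw [if_neg hv]
      by_cases huv : u = v
      · subst huv
        rw [hy]
        simp [hv]
      · rw [if_neg huv, mul_zero]

end alg

lemma two_or (a : ZMod 2) : a = 0 ∨ a = 1 := by revert a; decide

/-- **the determinant** -/
theorem Dx_iff (m : ℕ) (h1 : ∀ p ∈ m.primeFactors, p % 4 = 1) :
    Dx (wt (prm m h1)) (Pool.Agent.Y699.em (prm m h1)) Finset.univ = 1 ↔ Nsg m := by
  have hp := prm_PF m h1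
  constructor
  · intro hD x hx p hpm
    by_contra hne
    have h0 : Dx (wt (prm m h1)) (Pool.Agent.Y699.em (prm m h1)) Finset.univ = 0 := by
      refine Dx_zero _ _ (em_self hp) (fun v => x v.1) ?_ ⟨(⟨p, hpm⟩, true), Finset.mem_univ _, hne⟩
      rintro ⟨q, b⟩ -
      have h3 := hx q q.2
      rw [← Finset.sum_coe_sort m.primeFactors
        (fun r => Pool.Agent.Y703.CQ.nr (q : ℕ) r * (x r + x (q : ℕ)))] at h3
      rw [Fintype.sum_prod_type, wt_prm]
      rw [Finset.sum_congr rfl fun r _ => Fintype.sum_bool _]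
      unfold Run7.h843.Desc.f2 at h3
      refine Eq.trans ?_ h3
      refine congrArg (· + (if (q : ℕ) % 8 = 5 then (1 : ZMod 2) else 0) * x q)
        (Finset.sum_congr rfl fun r _ => ?_)
      simp only
      by_cases hqr : q = r
      · subst hqr
        have two : x (q : ℕ) + x (q : ℕ) = 0 := CharTwo.add_self_eq_zero _
        rw [two]
        ring
      · rw [← em_add m h1 hqr b]
        ring
    rw [h0] at hD
    exact absurd hD (by decide)
  · intro hk
    exact Dx_one _ _ (em_self hp) (Run7.h26.CN.bridge m h1 hk)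

/-- the conjugate valuation -/
noncomputable def cv {Γ : Type*} [LinearOrderedCommGroupWithZero Γ] (v : Valuation ℂ Γ) :
    Valuation ℂ Γ := v.comap (starRingEnd ℂ)

lemma cv_apply {Γ : Type*} [LinearOrderedCommGroupWithZero Γ] (v : Valuation ℂ Γ) (x : ℂ) :
    cv v x = v ((starRingEnd ℂ) x) := rfl

lemma card_prm (m : ℕ) : (Finset.univ : Finset ({p : ℕ // p ∈ m.primeFactors} × Bool)).card =
    2 * m.primeFactors.card := by
  rw [Finset.card_univ, Fintype.card_prod, Fintype.card_bool, Fintype.card_coe, mul_comm]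

lemma v_odd {Γ : Type*} [LinearOrderedCommGroupWithZero Γ] {v : Valuation ℂ Γ} (h2 : v 2 < 1) {m : ℕ}
    (hm : m % 2 = 1) : v (m : ℂ) = 1 := by
  obtain ⟨k, hk⟩ : ∃ k, m = 1 + 2 * k := ⟨m / 2, by omega⟩
  rw [hk]
  push_cast
  refine v.map_one_add_of_lt ?_
  rw [map_mul]
  exact lt_of_le_of_lt (mul_le_of_le_one_right' (v_nat k)) h2

/-- **the valuation of the central value** -/
theorem val_core (m : ℕ) (hm : Squarefree m) (h1 : ∀ p ∈ m.primeFactors, p % 4 = 1) (hodd : m % 2 = 1) :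
    ∃ F : ℂ → ℂ, Pool.Agent.Y19.QT.IsLFun (2 * (m : ℤ)) 0 F ∧
      ∀ (Γ : Type) [LinearOrderedCommGroupWithZero Γ] (v : Valuation ℂ Γ), v 2 < 1 →
        ∀ z : ℂ, z ^ 4 * (((Om : ℝ) : ℂ) ^ 4 * 16 ^ m.primeFactors.card) = 8 * m * F 1 ^ 4 →
          v z ≤ 1 ∧ (v z = 1 ↔ Nsg m) := by
  have hp := prm_PF m h1
  have hD := prm_DD m h1 hm
  obtain ⟨L, Ω, h, hΩ⟩ := exists_GS_Om
  refine ⟨_, isLFun hp Finset.univ m hD, fun Γ _ v h2 z hz => ?_⟩
  have h2' : cv v 2 < 1 := by
    rw [cv_apply, map_ofNat]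
    exact h2
  choose l hl using exists_lim (ι := {p : ℕ // p ∈ m.primeFactors} × Bool) h.g.lat (lim8' h) hp
  have h3 := Mq_cg h2' h.g.lat (lim8' h) hp (fun V _ => QG_cg h2' h hp V) hl Finset.univ
  rw [sum_wt_zero hp _ hD, add_zero, one_mul] at h3
  have hl' := hl Finset.univ
  rw [cqt_empty] at hl'
  have hF := LQ_eq hp Finset.univ hl'
  have e0 : (1 : ℂ) - 1 / 2 = 1 / 2 := by norm_num
  rw [e0, hF] at hz
  set c := l Finset.univ with hc
  set κ := Gq L (Ω / 8) with hκ
  set M := Mq Ω (prm m h1) l Finset.univ with hM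
  have hκ4 : κ ^ 4 = 512 := Gq_eight h
  have hO : ((Om : ℝ) : ℂ) ≠ 0 := by exact_mod_cast Om_pos.ne'
  have hΩ0 : Ω ≠ 0 := h.g.lat.ne
  have hm0 : (m : ℂ) ≠ 0 := by exact_mod_cast hm.ne_zero
  -- the fourth power
  have h5 : (1 + I : ℂ) ^ 4 = -4 := by
    linear_combination (I ^ 2 + 4 * I + 5) * I_sq
  have h6 : ((1 + I : ℂ) ^ (2 * m.primeFactors.card)) ^ 4 = 16 ^ m.primeFactors.card := by
    rw [← pow_mul, mul_comm 2, mul_assoc, mul_comm, pow_mul]
    congr 1
    have : (1 + I : ℂ) ^ (2 * 4) = ((1 + I) ^ 4) ^ 2 := by ring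
    rw [this, h5]
    norm_num
  have htD : tc (DD (prm m h1) Finset.univ) = (m : ℂ) := by
    rw [hD]
    exact map_natCast GaussianInt.toComplex m
  have h7 : (M / κ) ^ 4 * (((Om : ℝ) : ℂ) ^ 4 * 16 ^ m.primeFactors.card) = 8 * (m : ℂ) ^ 4 * c ^ 4 := by
    rw [hM]
    unfold Mq
    rw [← hc, card_prm, htD, div_pow, div_pow, h6, hκ4, mul_pow, mul_pow, div_pow, hΩ]
    field_simp
    ring
  have h8 : ((starRingEnd ℂ) (M / κ)) ^ 4 * (((Om : ℝ) : ℂ) ^ 4 * 16 ^ m.primeFactors.card) =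
      8 * (m : ℂ) ^ 4 * ((starRingEnd ℂ) c) ^ 4 := by
    have h9 := congrArg (starRingEnd ℂ) h7
    simpa only [map_mul, map_pow, Complex.conj_ofReal, map_ofNat, map_natCast] using h9
  have hne : (((Om : ℝ) : ℂ) ^ 4 * 16 ^ m.primeFactors.card) ≠ 0 :=
    mul_ne_zero (pow_ne_zero 4 hO) (pow_ne_zero _ (by norm_num))
  have h10 : ((starRingEnd ℂ) (M / κ)) ^ 4 = (m : ℂ) ^ 3 * z ^ 4 := by
    apply mul_right_cancel₀ hne
    rw [h8]
    linear_combination (-(m : ℂ) ^ 3) * hz
  have hvm := v_odd h2 hodd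
  have h11 : cv v (M / κ) = v z := by
    apply v_inj (n := 4) (by norm_num)
    rw [cv_apply, ← map_pow, h10, map_mul, map_pow, hvm, one_pow, one_mul, map_pow]
  rw [← h11, ← Dx_iff m h1]
  refine ⟨h3.l, ?_⟩
  rcases two_or (Dx (wt (prm m h1)) (Pool.Agent.Y699.em (prm m h1)) Finset.univ) with hd | hd
  · rw [hd] at h3 ⊢
    rw [uu_zero] at h3
    refine iff_of_false ?_ (by decide)
    have h12 := h3.s
    rw [sub_zero] at h12
    exact h12.ne
  · rw [hd] at h3 ⊢
    rw [uu_one] at h3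
    exact iff_of_true (Cg_v_one h3) rfl

end Run7.h555.Q4
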