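import Pool.Agent.Run7.h555.Q4.Z4
import Pool.Agent.Run7.h555.Q4.Z2
import Pool.Agent.Y306.SG.Tors
import Pool.Agent.Run7.h843.V3

/-!
The torsion of `y² = x³ + N x`, and the quotient of the two sides of the formula.
-/

set_option autoImplicit false
set_option linter.unusedSectionVars false

open NumberField IsDedekindDomain WeierstrassCurve MeasureTheory

namespace Run7.h555.Tam

open Pool.Agent.TH841.NF.D (Sha)
open Run7.h843.Desc (Nsg)
open Pool.Agent.Y715.Om (Om)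

open Classical in
/-- The order of the torsion subgroup of `W(K)`. -/
noncomputable def torsOrder {K : Type} [Field K] (W : WeierstrassCurve K) : ℕ :=
  Nat.card (AddCommGroup.torsion W.toAffine.Point)

/-- `4 x³ + b₂ x² + 2 b₄ x + b₆ = (2 y + a₁ x + a₃)²`. -/
def cubic (W : WeierstrassCurve ℤ) (x : ℝ) : ℝ := 4 * x ^ 3 + W.b₂ * x ^ 2 + 2 * W.b₄ * x + W.b₆

/-- the real period -/
noncomputable def Omega (W : WeierstrassCurve ℤ) : ℝ :=
  2 * ∫ x in {x : ℝ | 0 < cubic W x}, 1 / √(cubic W x)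

/-- the order predicted by the formula -/
noncomputable def anOrder (N : ℕ) (l : ℂ) : ℂ :=
  l * (torsOrder (E N) : ℂ) ^ 2 / ((Omega (C N) : ℝ) * (Tm (E N) : ℂ))

lemma not_sq {N : ℕ} (hN : Squarefree N) (h1 : 1 < N) : ¬ IsSquare (N : ℚ) := by
  rintro ⟨s, hs⟩
  have h2 : IsSquare ((N : ℕ) : ℚ) := ⟨s, hs⟩
  rw [Rat.isSquare_natCast_iff] at h2
  obtain ⟨r, hr⟩ := h2
  have h3 := hN r ⟨1, by rw [hr, mul_one]⟩
  rw [Nat.isUnit_iff] at h3
  rw [h3] at hr
  omega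

/-- **the order of the torsion subgroup** -/
theorem tors_eq {N : ℕ} (hN : Squarefree N) (h1 : 1 < N) :
    ∃ t : ℕ, Odd t ∧ torsOrder (E N) = 2 * t := by
  have hNz : (N : ℤ) ≠ 0 := by exact_mod_cast hN.ne_zero
  have hNp : (0 : ℚ) < N := by exact_mod_cast (by omega : 0 < N)
  obtain ⟨k, hk, h2⟩ := Pool.Agent.Y306.SG.t_TORS ℚ 0 (N : ℤ) hNz (by
    have : (0 : ℤ) ^ 2 - 4 * (N : ℤ) = -(4 * N) := by ring
    rw [this]
    exact neg_ne_zero.2 (mul_ne_zero (by norm_num) hNz)) (by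
    have := not_sq hN h1
    exact_mod_cast this) (by
    rintro ⟨s, hs⟩
    push_cast at hs
    nlinarith [mul_self_nonneg s])
  refine ⟨k, hk, ?_⟩
  unfold torsOrder
  rw [← h2, E_eq]
  have e : (⟨0, 0, 0, (N : ℚ), 0⟩ : WeierstrassCurve ℚ) =
      Pool.Agent.Y698.SG.Cv.WF ℚ 0 (N : ℤ) := by
    unfold Pool.Agent.Y698.SG.Cv.WF Pool.Agent.Y668.Wt
    simp
  rw [e]

/-- the period -/
lemma Omega_eq {N : ℕ} (hN : N ≠ 0) : 0 < Omega (C N) ∧ Omega (C N) ^ 4 * N = 4 * Om ^ 4 := by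
  have hNp : (0 : ℝ) < N := by exact_mod_cast (by omega : 0 < N)
  have e : Omega (C N) =
      2 * ∫ x in {x : ℝ | 0 < 4 * x ^ 3 + 4 * (N : ℝ) * x}, 1 / √(4 * x ^ 3 + 4 * (N : ℝ) * x) := by
    have h1 : ∀ x : ℝ, cubic (C N) x = 4 * x ^ 3 + 4 * (N : ℝ) * x := by
      intro x
      unfold cubic C WeierstrassCurve.b₂ WeierstrassCurve.b₄ WeierstrassCurve.b₆
      push_cast
      ring
    unfold Omega
    simp only [h1]
  rw [e]
  exact _root_.Run7.h555.Q4.omega_four hNp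

/-- **the value** -/
theorem value {m : ℕ} (hm : Squarefree m) (h1 : ∀ p ∈ m.primeFactors, p % 4 = 1) (hodd : m % 2 = 1)
    (hN : Squarefree (2 * m)) :
    ∃ F : ℂ → ℂ, Pool.Agent.Y19.QT.IsLFun (2 * (m : ℤ)) 0 F ∧
      ∀ (Γ : Type) [LinearOrderedCommGroupWithZero Γ] (v : Valuation ℂ Γ), v 2 < 1 →
        v (anOrder (2 * m) (F 1)) ≤ 1 ∧ (v (anOrder (2 * m) (F 1)) = 1 ↔ Nsg m) := by
  obtain ⟨F, hF, hval⟩ := _root_.Run7.h555.Q4.val_core m hm h1 hodd
  refine ⟨F, hF, fun Γ _ v h2 => ?_⟩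
  obtain ⟨t, ht, hto⟩ := tors_eq hN (by
    have := Nat.pos_of_ne_zero hm.ne_zero
    omega)
  obtain ⟨hO0, hO4⟩ := Omega_eq hN.ne_zero
  have hT := tam_eq hN (Dvd.intro m rfl)
  have hcard : (2 * m).primeFactors.card = m.primeFactors.card + 1 := by
    have hcop : Nat.Coprime 2 m := by
      rw [Nat.coprime_two_left, Nat.odd_iff]
      exact hodd
    rw [hcop.primeFactors_mul, Nat.Prime.primeFactors Nat.prime_two,
      Finset.card_union_of_disjoint (hcop.disjoint_primeFactors.mono_left (by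
        rw [Nat.Prime.primeFactors Nat.prime_two])), Finset.card_singleton, add_comm]
  have hOm : ((Om : ℝ) : ℂ) ≠ 0 := by exact_mod_cast _root_.Run7.h555.Q4.Om_pos.ne'
  have hOc : ((Omega (C (2 * m)) : ℝ) : ℂ) ≠ 0 := by exact_mod_cast hO0.ne'
  have hmc : (m : ℂ) ≠ 0 := by exact_mod_cast hm.ne_zero
  have hO4c : ((Omega (C (2 * m)) : ℝ) : ℂ) ^ 4 * (2 * m) = 4 * ((Om : ℝ) : ℂ) ^ 4 := by
    have := congrArg (fun x : ℝ => (x : ℂ)) hO4
    push_cast at this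
    exact this
  have ht0 : (t : ℂ) ≠ 0 := by
    intro h0
    have : t = 0 := by exact_mod_cast h0
    rw [this] at ht
    exact absurd ht (by decide)
  have hvt : v (t : ℂ) = 1 := _root_.Run7.h555.Q4.v_odd h2 (Nat.odd_iff.1 ht)
  set z := anOrder (2 * m) (F 1) with hz
  have hz' : z / (t : ℂ) ^ 2 = F 1 * 4 / ((Omega (C (2 * m)) : ℝ) * 2 ^ (m.primeFactors.card + 1)) := by
    rw [hz]
    unfold anOrder
    rw [hto, hT, hcard]
    push_cast
    field_simp
    ring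
  have key := hval Γ v h2 (z / (t : ℂ) ^ 2) (by
    rw [hz', div_pow, mul_pow, mul_pow]
    have e1 : (((2 : ℂ) ^ (m.primeFactors.card + 1)) ^ 4) = 16 * 16 ^ m.primeFactors.card := by
      rw [← pow_mul, add_mul, pow_add, mul_comm m.primeFactors.card 4, pow_mul]
      norm_num
      ring
    rw [e1, div_mul_eq_mul_div, div_eq_iff (mul_ne_zero (pow_ne_zero 4 hOc)
      (mul_ne_zero (by norm_num) (pow_ne_zero _ (by norm_num))))]
    linear_combination (-(F 1 ^ 4 * 64 * 16 ^ m.primeFactors.card)) * hO4c)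
  have e : v (z / (t : ℂ) ^ 2) = v z := by
    rw [map_div₀, map_pow, hvt, one_pow, div_one]
  rw [e] at key
  exact key

end Run7.h555.Tam
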