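import Pool.Agent.Run7.h555.Q4.Z3
import Pool.Agent.TH841.SH.ShaDef

/-!
The product of the Tamagawa numbers of `y² = x³ + N x` and the minimality of the equation.
-/

set_option autoImplicit false
set_option linter.unusedSectionVars false

namespace Run7.h555.Tam

open NumberField IsDedekindDomain WithZero WeierstrassCurve
open Rat.HeightOneSpectrum (natGenerator primesEquiv prime_natGenerator span_natGenerator)
open Pool.Agent.TH841.SH.D (Pt)

/-- the equation is minimal at the place `v` -/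
def MinimalAt (W : WeierstrassCurve ℚ) (v : HeightOneSpectrum (𝓞 ℚ)) : Prop :=
  ∀ C : VariableChange ℚ, v.valuation ℚ (C • W).a₁ ≤ 1 → v.valuation ℚ (C • W).a₂ ≤ 1 →
    v.valuation ℚ (C • W).a₃ ≤ 1 → v.valuation ℚ (C • W).a₄ ≤ 1 → v.valuation ℚ (C • W).a₆ ≤ 1 →
    v.valuation ℚ (C • W).Δ ≤ v.valuation ℚ W.Δ

/-- the group of the points with nonsingular reduction -/
noncomputable def nonsing (W : WeierstrassCurve ℚ) (v : HeightOneSpectrum (𝓞 ℚ)) :
    AddSubgroup (Pt W (v.adicCompletion ℚ)) :=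
  AddSubgroup.closure {P | ∀ x y h, P = Affine.Point.some x y h →
    1 < Valued.v x ∨
    Valued.v ((W.baseChange (v.adicCompletion ℚ)).a₁ * y -
      (3 * x ^ 2 + 2 * (W.baseChange (v.adicCompletion ℚ)).a₂ * x +
        (W.baseChange (v.adicCompletion ℚ)).a₄)) = 1 ∨
    Valued.v (2 * y + (W.baseChange (v.adicCompletion ℚ)).a₁ * x +
      (W.baseChange (v.adicCompletion ℚ)).a₃) = 1}

/-- the Tamagawa number -/
noncomputable def c (W : WeierstrassCurve ℚ) (v : HeightOneSpectrum (𝓞 ℚ)) : ℕ :=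
  (nonsing W v).index

/-- the product of the Tamagawa numbers -/
noncomputable def Tm (W : WeierstrassCurve ℚ) : ℕ := ∏ᶠ v : HeightOneSpectrum (𝓞 ℚ), c W v

/-- the curve -/
def C (N : ℕ) : WeierstrassCurve ℤ := ⟨0, 0, 0, N, 0⟩

/-- the curve over `ℚ` -/
abbrev E (N : ℕ) : WeierstrassCurve ℚ := (C N).map (Int.castRingHom ℚ)

lemma E_eq (N : ℕ) : E N = ⟨0, 0, 0, (N : ℚ), 0⟩ := by
  unfold E C WeierstrassCurve.map
  simp

variable (v : HeightOneSpectrum (𝓞 ℚ))

lemma asIdeal_eq : v.asIdeal = Ideal.span {((natGenerator v : ℕ) : 𝓞 ℚ)} := by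
  ext x
  have h1 : x ∈ v.asIdeal ↔ Rat.IsIntegralClosure.intEquiv (𝓞 ℚ) x ∈
      v.asIdeal.map (Rat.IsIntegralClosure.intEquiv (𝓞 ℚ)) := Ideal.apply_mem_of_equiv_iff.symm
  rw [h1, ← span_natGenerator, Ideal.mem_span_singleton, Ideal.mem_span_singleton]
  have h2 : ((natGenerator v : ℕ) : ℤ) =
      Rat.IsIntegralClosure.intEquiv (𝓞 ℚ) ((natGenerator v : ℕ) : 𝓞 ℚ) := by
    rw [map_natCast]
  rw [h2]
  exact map_dvd_iff (Rat.IsIntegralClosure.intEquiv (𝓞 ℚ))

lemma mem_iff (n : ℕ) : ((n : ℕ) : 𝓞 ℚ) ∈ v.asIdeal ↔ natGenerator v ∣ n := by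
  have h1 : ((n : ℕ) : 𝓞 ℚ) ∈ v.asIdeal ↔
      Rat.IsIntegralClosure.intEquiv (𝓞 ℚ) ((n : ℕ) : 𝓞 ℚ) ∈
      v.asIdeal.map (Rat.IsIntegralClosure.intEquiv (𝓞 ℚ)) := Ideal.apply_mem_of_equiv_iff.symm
  rw [h1, ← span_natGenerator, Ideal.mem_span_singleton, map_natCast]
  exact Int.natCast_dvd_natCast

lemma val_gen : v.valuation ℚ ((natGenerator v : ℕ) : ℚ) = exp (-1) := by
  have h1 : ((natGenerator v : ℕ) : ℚ) = algebraMap (𝓞 ℚ) ℚ ((natGenerator v : ℕ) : 𝓞 ℚ) := by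
    rw [map_natCast]
  rw [h1, HeightOneSpectrum.valuation_of_algebraMap]
  refine HeightOneSpectrum.intValuation_singleton v ?_ (asIdeal_eq v)
  exact_mod_cast (prime_natGenerator v).ne_zero

lemma val_one {n : ℕ} (h : ¬ natGenerator v ∣ n) : v.valuation ℚ (n : ℚ) = 1 := by
  have h1 : (n : ℚ) = algebraMap (𝓞 ℚ) ℚ (n : 𝓞 ℚ) := by
    rw [map_natCast]
  rw [h1, HeightOneSpectrum.valuation_eq_one_iff_notMem, mem_iff]
  exact h

lemma val_sqf {n : ℕ} (hn : Squarefree n) (h : natGenerator v ∣ n) :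
    v.valuation ℚ (n : ℚ) = exp (-1) := by
  obtain ⟨k, hk⟩ := h
  have h1 : ¬ natGenerator v ∣ k := by
    rintro ⟨l, hl⟩
    have h2 : natGenerator v * natGenerator v ∣ n := ⟨l, by rw [hk, hl]; ring⟩
    exact (prime_natGenerator v).one_lt.ne' (Nat.isUnit_iff.1 (hn _ h2))
  rw [hk]
  push_cast
  rw [map_mul, val_gen, val_one v h1, mul_one]

lemma val_alg (x : ℚ) : (Valued.v : Valuation (v.adicCompletion ℚ) ℤᵐ⁰)
    (algebraMap ℚ (v.adicCompletion ℚ) x) = v.valuation ℚ x :=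
  HeightOneSpectrum.valuedAdicCompletion_eq_valuation' v x

lemma cz_compl : CharZero (v.adicCompletion ℚ) :=
  charZero_of_injective_algebraMap (algebraMap ℚ (v.adicCompletion ℚ)).injective

lemma cn {N : ℕ} (hN : N ≠ 0) :
    CN ((E N).baseChange (v.adicCompletion ℚ)) ((N : ℕ) : v.adicCompletion ℚ) := by
  have := cz_compl v
  rw [E_eq]
  refine ⟨?_, ?_, ?_, ?_, ?_, by exact_mod_cast hN, two_ne_zero⟩ <;>
    simp [WeierstrassCurve.baseChange, WeierstrassCurve.map]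

lemma val_nat (n : ℕ) : (Valued.v : Valuation (v.adicCompletion ℚ) ℤᵐ⁰)
    ((n : ℕ) : v.adicCompletion ℚ) = v.valuation ℚ (n : ℚ) := by
  have h1 : ((n : ℕ) : v.adicCompletion ℚ) = algebraMap ℚ (v.adicCompletion ℚ) (n : ℚ) := by
    rw [map_natCast]
  rw [h1, val_alg]

/-- the Tamagawa number at the places which divide `N` -/
theorem c_two {N : ℕ} (hN : Squarefree N) (h : natGenerator v ∣ N) : c (E N) v = 2 := by
  have := cz_compl v
  exact @idx_two _ _ _ _ (cn v hN.ne_zero) (Classical.decEq _) Valued.v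
    (by rw [val_nat, val_sqf v hN h])

/-- the Tamagawa number at the other places -/
theorem c_one {N : ℕ} (hN : N ≠ 0) (h2 : 2 ∣ N) (h : ¬ natGenerator v ∣ N) : c (E N) v = 1 := by
  have := cz_compl v
  have h3 : ¬ natGenerator v ∣ 2 := fun h' => h (h'.trans h2)
  refine @idx_one _ _ _ _ (cn v hN) (Classical.decEq _) _ _ Valued.v ?_
    (by rw [val_nat, val_one v h])
  have h4 := val_nat v 2
  rw [val_one v h3] at h4
  exact_mod_cast h4

/-- **the product of the Tamagawa numbers** -/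
theorem tam_eq {N : ℕ} (hN : Squarefree N) (h2 : 2 ∣ N) : Tm (E N) = 2 ^ N.primeFactors.card := by
  classical
  have hinj : Set.InjOn (fun v : HeightOneSpectrum (𝓞 ℚ) => natGenerator v) Set.univ := by
    intro v _ w _ h
    exact primesEquiv.injective (Subtype.ext h)
  set S : Finset (HeightOneSpectrum (𝓞 ℚ)) :=
    N.primeFactors.attach.image (fun p => primesEquiv.symm ⟨p.1, Nat.prime_of_mem_primeFactors p.2⟩)
    with hS
  have hgen : ∀ p : Nat.Primes, natGenerator (primesEquiv.symm p : HeightOneSpectrum (𝓞 ℚ)) = p := by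
    intro p
    have := congrArg Subtype.val ((primesEquiv (R := 𝓞 ℚ)).apply_symm_apply p)
    exact this
  have hmem : ∀ v : HeightOneSpectrum (𝓞 ℚ), v ∈ S ↔ natGenerator v ∣ N := by
    intro v
    rw [hS, Finset.mem_image]
    constructor
    · rintro ⟨p, -, rfl⟩
      rw [hgen]
      exact Nat.dvd_of_mem_primeFactors p.2
    · intro h
      have hp : natGenerator v ∈ N.primeFactors :=
        Nat.mem_primeFactors.2 ⟨prime_natGenerator v, h, hN.ne_zero⟩
      refine ⟨⟨natGenerator v, hp⟩, Finset.mem_attach _ _, ?_⟩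
      exact primesEquiv.symm_apply_apply v
  have hcard : S.card = N.primeFactors.card := by
    rw [hS, Finset.card_image_of_injective, Finset.card_attach]
    intro p q hpq
    have h3 := primesEquiv.symm.injective hpq
    have h4 : (p : ℕ) = (q : ℕ) := congrArg (fun r : Nat.Primes => (r : ℕ)) h3
    exact Subtype.ext h4
  unfold Tm
  rw [finprod_eq_prod_of_mulSupport_subset (s := S)]
  · rw [Finset.prod_congr rfl (g := fun _ => 2) (fun v hv => c_two v hN ((hmem v).1 hv)),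
      Finset.prod_const, hcard]
  · intro v hv
    rw [Finset.mem_coe, hmem]
    by_contra h
    exact hv (c_one v hN.ne_zero h2 h)

lemma delta_int {w : Valuation ℚ ℤᵐ⁰} (W : WeierstrassCurve ℚ)
    (h1 : w W.a₁ ≤ 1) (h2 : w W.a₂ ≤ 1) (h3 : w W.a₃ ≤ 1) (h4 : w W.a₄ ≤ 1) (h6 : w W.a₆ ≤ 1) :
    w W.Δ ≤ 1 := by
  have hn : ∀ n : ℕ, w (n : ℚ) ≤ 1 := vnat w
  have n4 : w (4 : ℚ) ≤ 1 := by exact_mod_cast hn 4
  have n2 : w (2 : ℚ) ≤ 1 := by exact_mod_cast hn 2
  have n8 : w (8 : ℚ) ≤ 1 := by exact_mod_cast hn 8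
  have n27 : w (27 : ℚ) ≤ 1 := by exact_mod_cast hn 27
  have n9 : w (9 : ℚ) ≤ 1 := by exact_mod_cast hn 9
  have b2 : w W.b₂ ≤ 1 := by
    unfold WeierstrassCurve.b₂
    exact vadd (vpow h1 2) (vmul n4 h2)
  have b4 : w W.b₄ ≤ 1 := by
    unfold WeierstrassCurve.b₄
    exact vadd (vmul n2 h4) (vmul h1 h3)
  have b6 : w W.b₆ ≤ 1 := by
    unfold WeierstrassCurve.b₆
    exact vadd (vpow h3 2) (vmul n4 h6)
  have b8 : w W.b₈ ≤ 1 := by
    unfold WeierstrassCurve.b₈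
    exact vsub (vadd (vsub (vadd (vmul (vpow h1 2) h6) (vmul (vmul n4 h2) h6))
      (vmul (vmul h1 h3) h4)) (vmul h2 (vpow h3 2))) (vpow h4 2)
  unfold WeierstrassCurve.Δ
  exact vadd (vsub (vsub (vmul (vneg (vpow b2 2)) b8) (vmul n8 (vpow b4 3)))
    (vmul n27 (vpow b6 2))) (vmul (vmul (vmul n9 b2) b4) b6)

lemma delta_E (N : ℕ) : (E N).Δ = -((2 : ℕ) : ℚ) ^ 6 * ((N : ℕ) : ℚ) ^ 3 := by
  rw [E_eq]
  unfold WeierstrassCurve.Δ WeierstrassCurve.b₂ WeierstrassCurve.b₄ WeierstrassCurve.b₆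
    WeierstrassCurve.b₈
  push_cast
  ring

/-- the order of the discriminant -/
lemma val_delta {N : ℕ} (hN : Squarefree N) (h2 : 2 ∣ N) :
    ∃ k : ℤ, 0 ≤ k ∧ k < 12 ∧ v.valuation ℚ (E N).Δ = exp (-k) := by
  have e : v.valuation ℚ (E N).Δ = v.valuation ℚ ((2 : ℕ) : ℚ) ^ 6 * v.valuation ℚ ((N : ℕ) : ℚ) ^ 3 := by
    rw [delta_E, map_mul, Valuation.map_neg, map_pow, map_pow]
  rw [e]
  by_cases h : natGenerator v ∣ N
  · rw [val_sqf v hN h]
    by_cases h3 : natGenerator v ∣ 2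
    · rw [val_sqf v Nat.prime_two.prime.squarefree h3, ← exp_nsmul, ← exp_nsmul, ← exp_add]
      exact ⟨9, by norm_num, by norm_num, by norm_num⟩
    · rw [val_one v h3, one_pow, one_mul, ← exp_nsmul]
      exact ⟨3, by norm_num, by norm_num, by norm_num⟩
  · have h3 : ¬ natGenerator v ∣ 2 := fun h' => h (h'.trans h2)
    rw [val_one v h3, val_one v h, one_pow, one_pow, one_mul]
    exact ⟨0, le_rfl, by norm_num, by simp⟩

/-- **the equation is minimal** -/
theorem minimal {N : ℕ} (hN : Squarefree N) (h2 : 2 ∣ N) : MinimalAt (E N) v := by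
  intro C h1 h2' h3 h4 h6
  have hint := delta_int (C • E N) h1 h2' h3 h4 h6
  obtain ⟨k, hk0, hk, hd⟩ := val_delta v hN h2
  rw [variableChange_Δ, map_mul, map_pow, hd] at hint ⊢
  obtain ⟨m, hm⟩ := exists_exp (v.valuation ℚ) (C.u⁻¹).ne_zero
  rw [hm, ← exp_nsmul, ← exp_add] at hint ⊢
  rw [← exp_zero, exp_le_exp] at hint
  rw [exp_le_exp]
  simp only [nsmul_eq_mul] at hint ⊢
  push_cast at hint ⊢
  omega

end Run7.h555.Tam
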