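import Pool.Agent.Run7.h26.CN.Rn

/-!
The elliptic function attached to the quartic character of conductor `(1 + i)⁶`.
-/

set_option autoImplicit false
set_option linter.unusedSectionVars false

open Filter Complex
open scoped Topology PeriodPair
open H667R3 hiding sq
open Pool.Agent.TH936.CM Pool.Agent.W192.HK

namespace Run7.h555.Q4

open Pool.Agent.Y699
open H385 (ZI RQ im1 nrm)
open Pool.Agent.H304R3.HK (tc)
open Pool.Agent.W164.RC (tc_mul tc_star two2 prim_iff_dvd)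
open Pool.Agent.H304R2.EC.A1 (prim prim_mul prim_cancel prim_one prim_norm_odd prim_star eq_one_of_prim
  norm_def' re_mul' im_mul' eq_of_dvd prim_ne_zero)

variable {L : PeriodPair} {Ω : ℂ}

/-- the normalized data -/
structure GS (L : PeriodPair) (Ω : ℂ) : Prop where
  g : GLat L Ω
  e1 : ℘[L] (Ω / 2) = 1
  y0 : ℘'[L] (dz Ω) = 2 - 2 * I

lemma lat_unit (h : IsLat L RG Ω) {u w : ℂ} (hu : u ∈ RG) (hw : w ∈ RG) (huw : u * w = 1) :
    IsLat L RG (u * Ω) := by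
  refine ⟨mul_ne_zero (left_ne_zero_of_mul_eq_one huw) h.ne, fun z => ?_⟩
  rw [h.mem]
  constructor
  · rintro ⟨r, rfl⟩
    refine ⟨⟨w, hw⟩ * r, ?_⟩
    push_cast
    linear_combination (-(Ω * r)) * huw
  · rintro ⟨r, rfl⟩
    refine ⟨⟨u, hu⟩ * r, ?_⟩
    push_cast
    ring

lemma I_RG : (I : ℂ) ∈ RG := mem_RG.2 ⟨im1, tc_im1.symm⟩

lemma glat_I (h : GLat L Ω) : GLat L (I * Ω) :=
  ⟨lat_unit h.lat I_RG (neg_mem I_RG) (by linear_combination -I_sq), h.g2, h.g3⟩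

lemma glat_neg (h : GLat L Ω) : GLat L (-Ω) := by
  have e : -Ω = (-1) * Ω := by ring
  rw [e]
  exact ⟨lat_unit h.lat (neg_mem (one_mem _)) (neg_mem (one_mem _)) (by norm_num), h.g2, h.g3⟩

theorem exists_GS : ∃ (L : PeriodPair) (Ω : ℂ), GS L Ω := by
  obtain ⟨L, Ω, h⟩ := exists_GL
  obtain ⟨Ω', h', h1⟩ : ∃ Ω' : ℂ, GLat L Ω' ∧ ℘[L] (Ω' / 2) = 1 := by
    rcases sq_eq_one_iff.1 h.e1_sq with h7 | h7
    · exact ⟨Ω, h, h7⟩
    · refine ⟨I * Ω, glat_I h, ?_⟩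
      have e : I * Ω / 2 = I * (Ω / 2) := by ring
      rw [e, wp_I h.lat, h7, neg_neg]
  have h2 : ℘'[L] (dz Ω') ^ 2 = (2 - 2 * I) ^ 2 := by
    rw [h'.y0_sq, h'.x0, h1]
    linear_combination -4 * I_sq
  rcases sq_eq_sq_iff_eq_or_eq_neg.1 h2 with h3 | h3
  · exact ⟨L, Ω', h', h1, h3⟩
  · refine ⟨L, -Ω', glat_neg h', ?_, ?_⟩
    · have e : -Ω' / 2 = -(Ω' / 2) := by ring
      rw [e, L.weierstrassP_neg, h1]
    · have e : dz (-Ω') = -dz Ω' := by unfold dz; ring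
      rw [e, L.derivWeierstrassP_neg, h3, neg_neg]

section
variable (h : GLat L Ω)
include h

/-- `(1 + i) ^ j z` is not a period if a multiple is not -/
lemma nm_pow {z : ℂ} {j k : ℕ} (hz : (1 + I) ^ (j + k) * z ∉ L.lattice) :
    (1 + I) ^ j * z ∉ L.lattice := by
  intro h'
  apply hz
  have h1 := lat_mul h.lat (pi1 ^ k) h'
  have e : tc (pi1 ^ k) * ((1 + I) ^ j * z) = (1 + I) ^ (j + k) * z := by
    rw [tc_pow, tc_pi1, pow_add]; ring
  rwa [e] at h1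

lemma nm_two {z : ℂ} {j : ℕ} (hz : (1 + I) ^ (j + 2) * z ∉ L.lattice) :
    2 * ((1 + I) ^ j * z) ∉ L.lattice := by
  intro h'
  apply hz
  have h1 := lat_I h.lat h'
  have e : I * (2 * ((1 + I) ^ j * z)) = (1 + I) ^ (j + 2) * z := by
    rw [pow_add]
    linear_combination (-((1 + I) ^ j * z)) * I_sq
  rwa [e] at h1

/-- multiplication by `1 + i` on the `y`-coordinates -/
theorem wp'_pi {z : ℂ} (hz : 2 * z ∉ L.lattice) :
    (2 * I - 2) * ℘[L] z ^ 2 * ℘'[L] ((1 + I) * z) = ℘'[L] z * (℘[L] z ^ 2 + 1) := by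
  obtain ⟨-, hx0⟩ := h.mul_pi hz
  have hz' : z ∉ L.lattice := GLat.two_notMem hz
  have hz2 : (1 + I) * z ∉ L.lattice := by
    intro h'
    apply hz
    have := sub_mem h' (lat_I h.lat h')
    have e : (1 + I) * z - I * ((1 + I) * z) = 2 * z := by linear_combination (-z) * I_sq
    rwa [e] at this
  have d0 := hasDerivAt_weierstrassP L hz'
  have d1 : HasDerivAt (fun x : ℂ => ℘[L] ((1 + I) * x)) (℘'[L] ((1 + I) * z) * (1 + I)) z := by
    have h1 : HasDerivAt (fun x : ℂ => (1 + I) * x) (1 + I) z := by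
      simpa using (hasDerivAt_id z).const_mul (1 + I)
    exact (hasDerivAt_weierstrassP L hz2).comp z h1
  have hI : (2 * I * ℘[L] z : ℂ) ≠ 0 := mul_ne_zero (mul_ne_zero two_ne_zero I_ne_zero) hx0
  have d2 : HasDerivAt (fun x : ℂ => (℘[L] x ^ 2 - 1) / (2 * I * ℘[L] x))
      (((2 * ℘[L] z * ℘'[L] z) * (2 * I * ℘[L] z) - (℘[L] z ^ 2 - 1) * (2 * I * ℘'[L] z)) /
        (2 * I * ℘[L] z) ^ 2) z := by
    refine HasDerivAt.div ?_ (d0.const_mul (2 * I)) hI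
    refine ((d0.fun_pow 2).sub_const 1).congr_deriv ?_
    push_cast
    ring
  have h4 : (fun x : ℂ => ℘[L] ((1 + I) * x)) =ᶠ[𝓝 z]
      (fun x : ℂ => (℘[L] x ^ 2 - 1) / (2 * I * ℘[L] x)) := by
    filter_upwards [(isOpen_two L).mem_nhds hz] with x hx
    obtain ⟨h5, h6⟩ := h.mul_pi hx
    rw [eq_div_iff (mul_ne_zero (mul_ne_zero two_ne_zero I_ne_zero) h6)]
    linear_combination h5
  have h5 := d1.unique (d2.congr_of_eventuallyEq h4)
  rw [eq_div_iff (pow_ne_zero 2 hI)] at h5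
  have h6 : (2 * I) * ((2 * I - 2) * ℘[L] z ^ 2 * ℘'[L] ((1 + I) * z)) =
      (2 * I) * (℘'[L] z * (℘[L] z ^ 2 + 1)) := by
    linear_combination h5 + (4 * ℘[L] z ^ 2 * ℘'[L] ((1 + I) * z) * (1 - (1 + I))) * I_sq
  exact mul_left_cancel₀ (mul_ne_zero two_ne_zero I_ne_zero) h6

end

/-- the function -/
noncomputable def Gq (L : PeriodPair) (z : ℂ) : ℂ :=
  -(2 * (℘[L] z ^ 2 - 2 * ℘[L] z - 1)) / ℘'[L] z + 2 * (℘[L] z ^ 2 + 2 * ℘[L] z - 1) / (℘[L] z ^ 2 + 1)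

/-- the function with a zero of order four at `(1 - i) Ω / 4` -/
noncomputable def Ph (L : PeriodPair) (z : ℂ) : ℂ := (℘[L] z + I) ^ 2 + (1 + I) * ℘'[L] z

section
variable (h : GLat L Ω)
include h

lemma two_I_ne : (2 * I - 2 : ℂ) ≠ 0 := by
  intro h7
  have := congrArg Complex.re h7
  simp at this

/-- `x² + 1` at a point `z` with `2 (1 + i) z` not a period -/
lemma sq_add_ne {z : ℂ} (hz : (1 + I) ^ 3 * z ∉ L.lattice) : ℘[L] z ^ 2 + 1 ≠ 0 := by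
  have hz0 : 2 * z ∉ L.lattice := by
    have := nm_two h (j := 0) (nm_pow h (j := 2) (k := 1) hz)
    rwa [pow_zero, one_mul] at this
  have hz1 : 2 * ((1 + I) * z) ∉ L.lattice := by
    have := nm_two h (j := 1) hz
    rwa [pow_one] at this
  intro h0
  have h1 := wp'_pi h hz0
  rw [h0, mul_zero] at h1
  have h2 := wp'_ne_zero L hz1
  have h3 := (h.mul_pi hz0).2
  exact mul_ne_zero (mul_ne_zero (two_I_ne h) (pow_ne_zero 2 h3)) h2 h1

/-- the square -/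
theorem Gq_sq {z : ℂ} (hz : (1 + I) ^ 3 * z ∉ L.lattice) :
    ℘[L] ((1 + I) ^ 2 * z) ≠ 0 ∧ Gq L z ^ 2 * ℘[L] ((1 + I) ^ 2 * z) =
      -4 * (℘[L] ((1 + I) ^ 2 * z) ^ 2 + 1 + I * ℘'[L] ((1 + I) ^ 2 * z)) := by
  have hz0 : 2 * z ∉ L.lattice := by
    have := nm_two h (j := 0) (nm_pow h (j := 2) (k := 1) hz)
    rwa [pow_zero, one_mul] at this
  have hz1 : 2 * ((1 + I) * z) ∉ L.lattice := by
    have := nm_two h (j := 1) hz
    rwa [pow_one] at this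
  have hs := sq_add_ne h hz
  obtain ⟨m1, x0⟩ := h.mul_pi hz0
  obtain ⟨m2, x1⟩ := h.mul_pi hz1
  have w1 := wp'_pi h hz0
  have w2 := wp'_pi h hz1
  have y0 := wp'_ne_zero L hz0
  have y1 := wp'_ne_zero L hz1
  have q0 := h.eqn (GLat.two_notMem hz0)
  have q1 := h.eqn (GLat.two_notMem hz1)
  have e2 : (1 + I) * ((1 + I) * z) = (1 + I) ^ 2 * z := by ring
  rw [e2] at m2 w2
  unfold Gq
  set a := ℘[L] z
  set b := ℘'[L] z
  set a1 := ℘[L] ((1 + I) * z)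
  set b1 := ℘'[L] ((1 + I) * z)
  set a2 := ℘[L] ((1 + I) ^ 2 * z)
  set b2 := ℘'[L] ((1 + I) ^ 2 * z)
  have hI := two_I_ne h
  have hI2 := I_sq
  -- `a1² ≠ 1`
  have n1 : a1 ^ 2 - 1 ≠ 0 := by
    intro h0
    apply y1
    have : b1 ^ 2 = 0 := by rw [q1]; linear_combination (4 * a1) * h0
    exact pow_eq_zero_iff (two_ne_zero) |>.1 this
  have n2 : a2 ≠ 0 := by
    intro h0
    apply n1
    rw [← m2, h0, mul_zero]
  refine ⟨n2, ?_⟩
  -- the three pieces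
  have k1 : a ^ 2 - 2 * a - 1 = 2 * I * a * (a1 + I) := by
    linear_combination -m1 - 2 * a * hI2
  have k2 : a ^ 2 + 2 * a - 1 = 2 * I * a * (a1 - I) := by
    linear_combination -m1 + 2 * a * hI2
  set u : ℂ := 2 * (a ^ 2 - 2 * a - 1) / b with hu
  set t : ℂ := 2 * (a ^ 2 + 2 * a - 1) / (a ^ 2 + 1) with ht
  have p1 : u ^ 2 * a1 = 2 * I * (a1 + I) ^ 2 := by
    rw [hu, div_pow, div_mul_eq_mul_div, div_eq_iff (pow_ne_zero 2 y0), k1, q0]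
    linear_combination (8 * I * (a1 + I) ^ 2 * a) * m1
  have p2 : t ^ 2 * (a1 ^ 2 - 1) = 4 * (a1 - I) ^ 2 := by
    rw [ht, div_pow, div_mul_eq_mul_div, div_eq_iff (pow_ne_zero 2 hs), k2]
    linear_combination (4 * (a1 - I) ^ 2 * (2 * I * a * a1 + a ^ 2 - 1)) * m1 +
      (4 * (a1 - I) ^ 2 * (-4 * a ^ 2)) * hI2
  have p3 : u * t * b1 = 4 * (1 + I) * (a1 ^ 2 + 1) := by
    rw [hu, ht, div_mul_div_comm, div_mul_eq_mul_div, div_eq_iff (mul_ne_zero y0 hs), k1, k2]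
    linear_combination (4 * (1 + I) * (a1 ^ 2 + 1)) * w1 +
      (8 * a ^ 2 * b1 * (a1 ^ 2 - 2 * I ^ 2 + 1)) * hI2
  have r1 : u ^ 2 = -4 * (a2 + 1) := by
    apply mul_right_cancel₀ x1
    rw [p1]
    linear_combination (-2 * I) * m2 + (4 * a1 * (a2 + 1) + 2 * I) * hI2
  have r2 : t ^ 2 * a2 = 4 * (a2 - 1) := by
    have h1 : (2 * I * a1) * (t ^ 2 * a2) = (2 * I * a1) * (4 * (a2 - 1)) := by
      linear_combination p2 + (t ^ 2 - 4) * m2 + 4 * hI2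
    exact mul_left_cancel₀ (mul_ne_zero (mul_ne_zero two_ne_zero I_ne_zero) x1) h1
  have r3 : u * t * a2 = 2 * I * b2 := by
    have h1 : (8 * I * a1 ^ 2) * (u * t * a2) = (8 * I * a1 ^ 2) * (2 * I * b2) := by
      linear_combination b1 * p3 - (4 * (1 + I)) * w2 - (u * t) * q1 + (4 * a1 * u * t) * m2 -
        (8 * a1 ^ 2 * b2) * hI2
    exact mul_left_cancel₀ (mul_ne_zero (mul_ne_zero (by norm_num) I_ne_zero) (pow_ne_zero 2 x1)) h1
  have e : (-(2 * (a ^ 2 - 2 * a - 1)) / b + t) = -u + t := by rw [hu]; ring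
  rw [e]
  linear_combination a2 * r1 + r2 - 2 * r3

/-- the fourth power -/
theorem Gq_four {z : ℂ} (hz : (1 + I) ^ 4 * z ∉ L.lattice) :
    Gq L z ^ 4 = -64 * Ph L ((1 + I) ^ 3 * z) := by
  have hz' := nm_pow h (j := 3) (k := 1) hz
  obtain ⟨x2, g2⟩ := Gq_sq h hz'
  have hz2 : 2 * ((1 + I) ^ 2 * z) ∉ L.lattice := nm_two h hz
  obtain ⟨m3, -⟩ := h.mul_pi hz2
  have w3 := wp'_pi h hz2
  have q2 := h.eqn (GLat.two_notMem hz2)
  have e3 : (1 + I) * ((1 + I) ^ 2 * z) = (1 + I) ^ 3 * z := by ring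
  rw [e3] at m3 w3
  unfold Ph
  set a2 := ℘[L] ((1 + I) ^ 2 * z)
  set b2 := ℘'[L] ((1 + I) ^ 2 * z)
  set a3 := ℘[L] ((1 + I) ^ 3 * z)
  set b3 := ℘'[L] ((1 + I) ^ 3 * z)
  set G := Gq L z
  have hI2 := I_sq
  have h1 : a2 ^ 2 * G ^ 4 = a2 ^ 2 * (-64 * ((a3 + I) ^ 2 + (1 + I) * b3)) := by
    have h2 : a2 ^ 2 * G ^ 4 = 16 * (a2 ^ 2 + 1 + I * b2) ^ 2 := by
      have : a2 ^ 2 * G ^ 4 = (G ^ 2 * a2) ^ 2 := by ring
      rw [this, g2]; ring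
    rw [h2]
    linear_combination (-16 * (2 * I * a2 * a3 + a2 ^ 2 - 1) - 64 * I ^ 2 * a2) * m3 -
      (32 * I) * w3 + (16 * I ^ 2) * q2 + (64 * a2 ^ 2 * (a3 ^ 2 + 1 + 2 * I * a3 + b3)) * hI2
  exact mul_left_cancel₀ (pow_ne_zero 2 x2) h1

end

end Run7.h555.Q4
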