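import Pool.Agent.Run7.h555.Q4.Fg

/-!
The product of two values of `Ph` at points which differ by `(1 - i) Ω / 4`, and the limits.
-/

set_option autoImplicit false
set_option linter.unusedSectionVars false

open Filter Complex
open scoped Topology PeriodPair
open H667R3 hiding sq
open Pool.Agent.TH936.CM Pool.Agent.W192.HK

namespace Run7.h555.Q4

open Pool.Agent.Y699
open H385 (ZI RQ im1 nrm)
open Pool.Agent.H304R3.HK (tc)
open Pool.Agent.W164.RC (tc_mul tc_star two2 prim_iff_dvd)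
open Pool.Agent.H304R2.EC.A1 (prim prim_mul prim_cancel prim_one prim_norm_odd prim_star eq_one_of_prim
  norm_def' re_mul' im_mul' eq_of_dvd prim_ne_zero)

variable {L : PeriodPair} {Ω : ℂ}

section
variable (h : GLat L Ω)
include h

/-- the addition formulas with the slope -/
lemma slope_add {z w : ℂ} (hz : 2 * z ∉ L.lattice) (hw : w ∉ L.lattice) (h1 : z + w ∉ L.lattice)
    (h2 : z - w ∉ L.lattice) : ℘[L] z - ℘[L] w ≠ 0 ∧
    4 * (℘[L] z - ℘[L] w) ^ 2 * ℘[L] (z + w) = (℘'[L] z - ℘'[L] w) ^ 2 -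
      4 * (℘[L] z + ℘[L] w) * (℘[L] z - ℘[L] w) ^ 2 ∧
    (℘[L] z - ℘[L] w) * ℘'[L] (z + w) = (℘'[L] z - ℘'[L] w) * (℘[L] z - ℘[L] (z + w)) -
      ℘'[L] z * (℘[L] z - ℘[L] w) := by
  have hz' := two_mul_notMem_of L hz
  have hD : ℘[L] z - ℘[L] w ≠ 0 := by
    rw [sub_ne_zero, Ne, wp_eq_iff L hz' hw]
    tauto
  have a1 := wp_add L hz hw h1 h2
  have a2 := wp'_add L hz hw h1 h2
  have q0 := h.eqn hz'
  have q1 := h.eqn hw
  rw [h.g2] at a1 a2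
  set a := ℘[L] z
  set b := ℘'[L] z
  set q := ℘[L] w
  set c := ℘'[L] w
  set A := ℘[L] (z + w)
  set B := ℘'[L] (z + w)
  refine ⟨hD, ?_, ?_⟩
  · rw [a1]
    field_simp
    linear_combination 4 * (q0 - q1)
  · rw [a1, a2]
    field_simp
    linear_combination (-2 * b) * (q0 - q1)

end

/-- **the product** -/
theorem Ph_mul (h : GS L Ω) {z : ℂ} (hz : 2 * z ∉ L.lattice) (h1 : z - dz Ω ∉ L.lattice)
    (h2 : z + dz Ω ∉ L.lattice) : Ph L (z - dz Ω) * Ph L z = -8 * ℘[L] z ^ 2 := by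
  have hw : -dz Ω ∉ L.lattice := fun h' => h.g.dz_notMem (by simpa using neg_mem h')
  obtain ⟨hD, s1, s2⟩ := slope_add h.g hz hw (by rwa [← sub_eq_add_neg])
    (by rwa [sub_neg_eq_add])
  have q0 := h.g.eqn (GLat.two_notMem hz)
  have x0 : ℘[L] (dz Ω) = I := by rw [h.g.x0, h.e1, mul_one]
  rw [L.weierstrassP_neg, L.derivWeierstrassP_neg, x0, h.y0, ← sub_eq_add_neg] at s1 s2
  rw [L.weierstrassP_neg, x0] at hD
  unfold Ph
  set a := ℘[L] z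
  set b := ℘'[L] z
  set A := ℘[L] (z - dz Ω)
  set B := ℘'[L] (z - dz Ω)
  have hI2 := I_sq
  have e1 : (b - -(2 - 2 * I)) ^ 2 - 4 * a * (a - I) ^ 2 = 8 * I * (a ^ 2 - 1) - 2 * (2 * I - 2) * b := by
    linear_combination q0 + (4 - 4 * a) * hI2
  have e2 : 4 * (a - I) ^ 2 * (A + I) = 8 * I * (a ^ 2 - 1) - 2 * (2 * I - 2) * b := by
    linear_combination s1 + e1
  have e3 : 16 * (a - I) ^ 4 * B = 4 * (a - I) * (b - (2 * I - 2)) *
      (4 * (a - I) ^ 2 * (a + I) - 8 * I * (a ^ 2 - 1) + 2 * (2 * I - 2) * b) - 16 * b * (a - I) ^ 4 := by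
    linear_combination (16 * (a - I) ^ 3) * s2 - (4 * (a - I) * (b - (2 * I - 2))) * e2
  have e4 : 16 * (a - I) ^ 4 * ((A + I) ^ 2 + (1 + I) * B) =
      -128 * a ^ 2 * ((a + I) ^ 2 - (1 + I) * b) := by
    have e7 : 16 * (a - I) ^ 4 * (A + I) ^ 2 =
        (8 * I * (a ^ 2 - 1) - 2 * (2 * I - 2) * b) ^ 2 := by
      rw [← e2]; ring
    linear_combination e7 + (1 + I) * e3 +
      (16*I ^ 2*a - 16*I ^ 3 + 16*I ^ 2 - 16*I - 16*a + 16) * q0 +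
      (-64*I*a ^ 2*b + 64*I*a ^ 3 + 96*I ^ 2*a*b - 64*I ^ 2*a ^ 2 - 64*I ^ 3*a - 32*I ^ 3*b + 32*I ^ 4 + 96*a ^ 4 + 64*I*a*b - 128*a ^ 2*b + 64*a ^ 3 + 128*I*a - 32*I*b - 32*a*b + 64*a ^ 2 - 64*a) * hI2
  have e5 : ((a + I) ^ 2 - (1 + I) * b) * ((a + I) ^ 2 + (1 + I) * b) = (a - I) ^ 4 := by
    linear_combination (-I ^ 2 - 2*I - 1) * q0 + (-4*a ^ 3 + 8*I*a + 4*a) * hI2
  have e6 : (16 * (a - I) ^ 4) * (((A + I) ^ 2 + (1 + I) * B) * ((a + I) ^ 2 + (1 + I) * b)) =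
      (16 * (a - I) ^ 4) * (-8 * a ^ 2) := by
    linear_combination ((a + I) ^ 2 + (1 + I) * b) * e4 - (128 * a ^ 2) * e5
  exact mul_left_cancel₀ (mul_ne_zero (by norm_num) (pow_ne_zero 4 hD)) e6

end Run7.h555.Q4
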