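import Pool.Agent.Run7.h555.Q4.Fh

/-!
The limit of the sum of the Eisenstein series over the primary classes modulo eight.
-/

set_option autoImplicit false
set_option linter.unusedSectionVars false

open Filter Complex
open scoped Topology PeriodPair
open H667R3 hiding sq
open Pool.Agent.TH936.CM Pool.Agent.W192.HK

namespace Run7.h555.Q4

open Pool.Agent.Y699
open H385 (ZI RQ im1 nrm)
open Pool.Agent.H304R3.HK (tc)
open Pool.Agent.W164.RC (tc_mul tc_star two2 prim_iff_dvd)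
open Pool.Agent.H304R2.EC.A1 (prim prim_mul prim_cancel prim_one prim_norm_odd prim_star eq_one_of_prim
  norm_def' re_mul' im_mul' eq_of_dvd prim_ne_zero)

variable {L : PeriodPair} {Ω : ℂ}

/-- the symbol of `-2` on primary elements -/
def mu (a : ZI) : ZI := im1 ^ ((a.im / 2) % 4).toNat

/-- the primary classes modulo eight -/
def U8 : Finset ZI := {⟨1, 0⟩, ⟨5, 0⟩, ⟨3, 2⟩, ⟨7, 2⟩, ⟨1, 4⟩, ⟨5, 4⟩, ⟨3, 6⟩, ⟨7, 6⟩}

lemma sum_U8 (f : ZI → ℂ) : ∑ u ∈ U8, f u = f ⟨1, 0⟩ + (f ⟨5, 0⟩ + (f ⟨3, 2⟩ + (f ⟨7, 2⟩ +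
    (f ⟨1, 4⟩ + (f ⟨5, 4⟩ + (f ⟨3, 6⟩ + f ⟨7, 6⟩)))))) := by
  unfold U8
  rw [Finset.sum_insert (by decide), Finset.sum_insert (by decide), Finset.sum_insert (by decide),
    Finset.sum_insert (by decide), Finset.sum_insert (by decide), Finset.sum_insert (by decide),
    Finset.sum_insert (by decide), Finset.sum_singleton]

/-- multiplication by `i` -/
def mI : ZI ≃ ZI where
  toFun b := im1 * b
  invFun b := -(im1 * b)
  left_inv b := by
    show -(im1 * (im1 * b)) = b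
    have : im1 * im1 = (-1 : ZI) := by decide
    linear_combination (-b) * this
  right_inv b := by
    show im1 * -(im1 * b) = b
    have : im1 * im1 = (-1 : ZI) := by decide
    linear_combination (-b) * this

lemma EG_I (δ : ℝ) (z : ℂ) : EG Ω δ (I * z) = -I * EG Ω δ z := by
  unfold EG
  rw [← mI.tsum_eq, ← tsum_mul_left]
  refine tsum_congr fun b => ?_
  have e : I * z + Ω * tc (mI b) = I * (z + Ω * tc b) := by
    show I * z + Ω * tc (im1 * b) = _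
    rw [tc_mul, tc_im1]; ring
  have h1 : Complex.normSq I = 1 := by simp
  rw [e, fd_mul, h1, mul_one, Complex.inv_I]

section
variable (h : GLat L Ω)
include h

lemma nm_add {z R : ℂ} (hz : (1 + I) ^ 3 * z ∉ L.lattice) (hR : (1 + I) ^ 3 * R ∈ L.lattice) :
    z + R ∉ L.lattice := by
  intro h'
  apply hz
  have h1 := lat_mul h.lat (pi1 ^ 3) h'
  rw [tc_pow, tc_pi1, mul_add] at h1
  have := sub_mem h1 hR
  rwa [add_sub_cancel_right] at this

lemma nm_sub {z R : ℂ} (hz : (1 + I) ^ 3 * z ∉ L.lattice) (hR : (1 + I) ^ 3 * R ∈ L.lattice) :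
    z - R ∉ L.lattice := by
  rw [sub_eq_add_neg]
  refine nm_add h hz ?_
  rw [mul_neg]
  exact neg_mem hR

lemma lim_half {z P : ℂ} (hz : (1 + I) ^ 3 * z ∉ L.lattice) (hP : P ∉ L.lattice)
    (h2P : 2 * P ∈ L.lattice) :
    Tendsto (fun δ : ℝ => EG Ω δ (z + P) - EG Ω δ z) (𝓝[>] 0)
      (𝓝 (℘'[L] z / (2 * (℘[L] z - ℘[L] P)))) := by
  have h3 : (1 + I) ^ 3 * P ∈ L.lattice := by
    have h1 := lat_mul h.lat (im1 * pi1) h2P
    have e : tc (im1 * pi1) * (2 * P) = (1 + I) ^ 3 * P := by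
      rw [tc_mul, tc_im1, tc_pi1]
      linear_combination (-(P * (1 + I))) * I_sq
    rwa [e] at h1
  have h0 : z ∉ L.lattice := by
    have := nm_add h hz (R := 0) (by rw [mul_zero]; exact zero_mem _)
    rwa [add_zero] at this
  have hl := (lim_Dd h.lat h0 hP (nm_add h hz h3) (nm_sub h hz h3)).const_mul (1 / 2 : ℂ)
  have e : (1 / 2 : ℂ) * Dd L z P = ℘'[L] z / (2 * (℘[L] z - ℘[L] P)) := by
    unfold Dd
    rw [div_mul_div_comm, one_mul]
  rw [e] at hl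
  refine hl.congr fun δ => ?_
  rw [← EG_eq, ← EG_eq, ← EG_eq]
  have e1 : EG Ω δ (z - P) = EG Ω δ (z + P) := by
    refine EG_per h.lat δ ?_
    have : z - P - (z + P) = -(2 * P) := by ring
    rw [this]
    exact neg_mem h2P
  rw [e1]
  ring

lemma lim_pair {z t l : ℂ} (hz : (1 + I) ^ 3 * z ∉ L.lattice) (ht : t ∉ L.lattice)
    (h3 : (1 + I) ^ 3 * t ∈ L.lattice) (hl : Tendsto (fun δ : ℝ => EG Ω δ t) (𝓝[>] 0) (𝓝 l)) :
    Tendsto (fun δ : ℝ => EG Ω δ (z + t) - EG Ω δ (z - t)) (𝓝[>] 0)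
      (𝓝 (℘'[L] t / (℘[L] t - ℘[L] z) + 2 * l)) := by
  have h0 : z ∉ L.lattice := by
    have := nm_add h hz (R := 0) (by rw [mul_zero]; exact zero_mem _)
    rwa [add_zero] at this
  have h1 := lim_Dd h.lat ht h0 (by rw [add_comm]; exact nm_add h hz h3) (by
    intro h'
    apply nm_sub h hz h3
    have := neg_mem h'
    rwa [neg_sub] at this)
  have h2 := h1.add (hl.const_mul 2)
  refine h2.congr fun δ => ?_
  rw [← EG_eq, ← EG_eq, ← EG_eq]
  have e1 : EG Ω δ (t - z) = -EG Ω δ (z - t) := by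
    rw [← EG_neg, neg_sub]
  rw [e1, add_comm t z]
  ring

end

lemma dz_eq' : dz Ω = Ω * (1 - I) / 4 := by
  have := dz_four' (Ω := Ω)
  exact this
where
  dz_four' {Ω : ℂ} : dz Ω = Ω * (1 - I) / 4 := by
    rw [Run7.h26.CN.dz_four]
    unfold tc
    push_cast
    ring

theorem lim8 (h : GS L Ω) {z : ℂ} (hz : (1 + I) ^ 3 * (Ω / 8 + z) ∉ L.lattice) :
    Tendsto (fun δ : ℝ => ∑ u ∈ U8, tc (mu u) * EG Ω δ (Ω * tc u / 8 + z)) (𝓝[>] 0)
      (𝓝 (Gq L (Ω / 8 + z))) := by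
  set ζ := Ω / 8 + z with hζ
  have hg := h.g
  have hI2 := I_sq
  have mem : ∀ a : ZI, Ω * tc a ∈ L.lattice := fun a => (mem_lat hg.lat).2 ⟨a, rfl⟩
  -- the points of order two
  have e2 : tc (2 : ZI) = 2 := by
    have := tc_int 2
    push_cast at this
    exact this
  have nh : ∀ a : ZI, (a.re % 2 = 1 ∨ a.im % 2 = 1) → Ω * tc a / 2 ∉ L.lattice := by
    intro a ha h'
    rw [← e2] at h'
    refine div_notMem hg.lat (by decide) ?_ h'
    rintro ⟨c, hc⟩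
    have r1 := congrArg Zsqrtd.re hc
    have r2 := congrArg Zsqrtd.im hc
    simp only [Zsqrtd.re_mul, Zsqrtd.im_mul] at r1 r2
    have e1 : (2 : ZI).re = 2 := rfl
    have e2 : (2 : ZI).im = 0 := rfl
    rw [e1, e2] at r1 r2
    omega
  have dm : ∀ a : ZI, 2 * (Ω * tc a / 2) ∈ L.lattice := by
    intro a
    have e : 2 * (Ω * tc a / 2) = Ω * tc a := by ring
    rw [e]; exact mem a
  have x1 : ℘[L] (Ω * tc ⟨1, 0⟩ / 2) = 1 := by
    have e : Ω * tc ⟨1, 0⟩ / 2 = Ω / 2 := by unfold tc; push_cast; ring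
    rw [e, h.e1]
  have x2 : ℘[L] (Ω * tc ⟨0, 1⟩ / 2) = -1 := by
    have e : Ω * tc ⟨0, 1⟩ / 2 = I * (Ω / 2) := by unfold tc; push_cast; ring
    rw [e, wp_I hg.lat, h.e1]
  have x3 : ℘[L] (Ω * tc ⟨1, 1⟩ / 2) = 0 := by
    have e : Ω * tc ⟨1, 1⟩ / 2 = I * (Ω * tc 1 / tc pi1) := by
      rw [tc_one, tc_pi1, mul_one, div_eq_mul_inv Ω (1 + I), inv_one_I]
      unfold tc
      push_cast
      linear_combination (Ω / 2) * hI2
    rw [e, wp_I hg.lat, hg.wp_s1, neg_zero]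
  have t1 := lim_half hg hz (nh ⟨1, 0⟩ (Or.inl (by decide))) (dm _)
  have t2 := lim_half hg hz (nh ⟨0, 1⟩ (Or.inr (by decide))) (dm _)
  have t3 := lim_half hg hz (nh ⟨1, 1⟩ (Or.inl (by decide))) (dm _)
  rw [x1] at t1
  rw [x2] at t2
  rw [x3] at t3
  -- the points of order `(1 + i)³`
  have xd : ℘[L] (dz Ω) = I := by rw [hg.x0, h.e1, mul_one]
  have l1 : Tendsto (fun δ : ℝ => EG Ω δ (dz Ω)) (𝓝[>] 0) (𝓝 ((1 + I) / 2)) := by
    have h1 := lim_dz hg
    rw [xd, h.y0] at h1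
    have e : -(2 - 2 * I) / (4 * I) = (1 + I) / 2 := by
      rw [div_eq_div_iff (mul_ne_zero (by norm_num) I_ne_zero) (by norm_num)]
      linear_combination (-4) * hI2
    rwa [e] at h1
  have l2 : Tendsto (fun δ : ℝ => EG Ω δ (I * dz Ω)) (𝓝[>] 0) (𝓝 (-I * ((1 + I) / 2))) := by
    refine (l1.const_mul (-I)).congr fun δ => ?_
    rw [EG_I]
  have m3 : (1 + I) ^ 3 * dz Ω ∈ L.lattice := by
    have e : (1 + I) ^ 3 * dz Ω = Ω * tc im1 := by
      rw [dz_eq', tc_im1]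
      linear_combination (Ω / 4 * (-I ^ 2 - 2 * I + 1)) * hI2
    rw [e]; exact mem _
  have m4 : (1 + I) ^ 3 * (I * dz Ω) ∈ L.lattice := by
    have := lat_I hg.lat m3
    have e : (1 + I) ^ 3 * (I * dz Ω) = I * ((1 + I) ^ 3 * dz Ω) := by ring
    rwa [e]
  have nI : I * dz Ω ∉ L.lattice := by
    intro h'
    apply hg.dz_notMem
    have := neg_mem (lat_I hg.lat h')
    have e : -(I * (I * dz Ω)) = dz Ω := by linear_combination (-dz Ω) * hI2
    rwa [e] at this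
  have t4 := lim_pair hg hz hg.dz_notMem m3 l1
  have t5 := lim_pair hg hz nI m4 l2
  rw [xd, h.y0] at t4
  rw [wp_I hg.lat, wp'_I hg.lat, xd, h.y0] at t5
  have key := (((t1.sub t2).sub t3).add (t5.const_mul I)).sub (t4.const_mul I)
  have hval : ℘'[L] ζ / (2 * (℘[L] ζ - 1)) - ℘'[L] ζ / (2 * (℘[L] ζ - -1)) -
      ℘'[L] ζ / (2 * (℘[L] ζ - 0)) + I * (I * (2 - 2 * I) / (-I - ℘[L] ζ) + 2 * (-I * ((1 + I) / 2))) -
      I * ((2 - 2 * I) / (I - ℘[L] ζ) + 2 * ((1 + I) / 2)) = Gq L ζ := by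
    have hs := sq_add_ne hg hz
    have q0 : ℘'[L] ζ ^ 2 = 4 * ℘[L] ζ ^ 3 - 4 * ℘[L] ζ := by
      refine hg.eqn ?_
      have := nm_add hg hz (R := 0) (by rw [mul_zero]; exact zero_mem _)
      rwa [add_zero] at this
    have hy : ℘'[L] ζ ≠ 0 := by
      refine wp'_ne_zero L ?_
      have := nm_two hg (j := 0) (nm_pow hg (j := 2) (k := 1) hz)
      rwa [pow_zero, one_mul] at this
    unfold Gq
    set x := ℘[L] ζ
    set y := ℘'[L] ζ
    have hy2 : y ^ 2 ≠ 0 := pow_ne_zero 2 hy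
    have n0 : x ≠ 0 := by
      rintro h0
      apply hy2
      rw [q0, h0]; ring
    have n1 : x - 1 ≠ 0 := by
      intro h0
      apply hy2
      rw [q0]
      linear_combination (4 * x * (x + 1)) * h0
    have n2 : x + 1 ≠ 0 := by
      intro h0
      apply hy2
      rw [q0]
      linear_combination (4 * x * (x - 1)) * h0
    have a1 : y / (2 * (x - 1)) - y / (2 * (x - -1)) - y / (2 * (x - 0)) =
        -(2 * (x ^ 2 - 2 * x - 1)) / y := by
      rw [sub_neg_eq_add, sub_zero, eq_div_iff hy]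
      have e : (y / (2 * (x - 1)) - y / (2 * (x + 1)) - y / (2 * x)) * y =
          y ^ 2 * -(x ^ 2 - 2 * x - 1) / (2 * x * ((x - 1) * (x + 1))) := by
        field_simp
        ring
      rw [e, q0, div_eq_iff (mul_ne_zero (mul_ne_zero two_ne_zero n0) (mul_ne_zero n1 n2))]
      ring
    have hD : x ^ 2 + 1 = (-I - x) * (I - x) := by linear_combination hI2
    have d1 : -I - x ≠ 0 := by
      intro h0
      apply hs
      rw [hD, h0, zero_mul]
    have d2 : I - x ≠ 0 := by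
      intro h0
      apply hs
      rw [hD, h0, mul_zero]
    have a2 : I * (I * (2 - 2 * I) / (-I - x) + 2 * (-I * ((1 + I) / 2))) -
        I * ((2 - 2 * I) / (I - x) + 2 * ((1 + I) / 2)) =
        2 * (x ^ 2 + 2 * x - 1) / (x ^ 2 + 1) := by
      rw [eq_div_iff hs, hD]
      have e1 : I * (2 - 2 * I) / (-I - x) * ((-I - x) * (I - x)) = I * (2 - 2 * I) * (I - x) := by
        field_simp
      have e3 : (2 - 2 * I) / (I - x) * ((-I - x) * (I - x)) = (2 - 2 * I) * (-I - x) := by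
        field_simp
      linear_combination I * e1 - I * e3 + (-I*x ^ 2 + I ^ 3 + 2*I*x - 2*x ^ 2 - 4*x + 2) * hI2
    rw [← a1, ← a2]
    ring
  rw [hval] at key
  refine key.congr fun δ => ?_
  rw [sum_U8]
  have p : ∀ (u : ZI) (R : ℂ) (b : ZI), Ω * tc u / 8 - Ω / 8 - R = Ω * tc b →
      EG Ω δ (Ω * tc u / 8 + z) = EG Ω δ (ζ + R) := by
    intro u R b he
    refine EG_per hg.lat δ ?_
    have e : Ω * tc u / 8 + z - (ζ + R) = Ω * tc u / 8 - Ω / 8 - R := by rw [hζ]; ring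
    rw [e, he]
    exact mem b
  have m1 : mu ⟨1, 0⟩ = 1 := by decide
  have m5 : mu ⟨5, 0⟩ = 1 := by decide
  have m32 : mu ⟨3, 2⟩ = im1 := by decide
  have m72 : mu ⟨7, 2⟩ = im1 := by decide
  have m14 : mu ⟨1, 4⟩ = -1 := by decide
  have m54 : mu ⟨5, 4⟩ = -1 := by decide
  have m36 : mu ⟨3, 6⟩ = -im1 := by decide
  have m76 : mu ⟨7, 6⟩ = -im1 := by decide
  rw [m1, m5, m32, m72, m14, m54, m36, m76, tc_neg, tc_neg, tc_one, tc_im1,
    p ⟨1, 0⟩ 0 0 (by rw [tc_zero]; unfold tc; push_cast; ring),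
    p ⟨5, 0⟩ (Ω * tc ⟨1, 0⟩ / 2) 0 (by rw [tc_zero]; unfold tc; push_cast; ring),
    p ⟨3, 2⟩ (I * dz Ω) 0 (by rw [tc_zero, dz_eq']; unfold tc; push_cast; linear_combination (Ω / 4) * hI2),
    p ⟨7, 2⟩ (-dz Ω) 1 (by rw [dz_eq', tc_one]; unfold tc; push_cast; ring),
    p ⟨1, 4⟩ (Ω * tc ⟨0, 1⟩ / 2) 0 (by rw [tc_zero]; unfold tc; push_cast; ring),
    p ⟨5, 4⟩ (Ω * tc ⟨1, 1⟩ / 2) 0 (by rw [tc_zero]; unfold tc; push_cast; ring),
    p ⟨3, 6⟩ (dz Ω) im1 (by rw [dz_eq', tc_im1]; unfold tc; push_cast; ring),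
    p ⟨7, 6⟩ (-(I * dz Ω)) pi1 (by rw [dz_eq', tc_pi1]; unfold tc; push_cast;
                                   linear_combination (-Ω / 4) * hI2),
    add_zero, ← sub_eq_add_neg, ← sub_eq_add_neg]
  ring

end Run7.h555.Q4
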