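import Pool.Agent.Run7.h555.Q4.V

/-!
The values of the function `Gq` at the points `Ω / 8 + y`, with `y` of odd order.
-/

set_option autoImplicit false
set_option linter.unusedSectionVars false

open Filter Complex
open scoped Topology PeriodPair
open H667R3 hiding sq
open Pool.Agent.TH936.CM Pool.Agent.W192.HK

namespace Run7.h555.Q4

open Pool.Agent.Y699
open H385 (ZI RQ im1 nrm)
open Pool.Agent.H304R3.HK (tc)
open Pool.Agent.W164.RC (tc_mul tc_star two2 prim_iff_dvd)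
open Pool.Agent.H304R2.EC.A1 (prim prim_mul prim_cancel prim_one prim_norm_odd prim_star eq_one_of_prim
  norm_def' re_mul' im_mul' eq_of_dvd prim_ne_zero)

variable {L : PeriodPair} {Ω : ℂ}

lemma Gq_per {z w : ℂ} (hw : w - z ∈ L.lattice) : Gq L w = Gq L z := by
  have h1 := L.weierstrassP_add_coe z ⟨_, hw⟩
  have h2 := L.derivWeierstrassP_add_coe z ⟨_, hw⟩
  simp only at h1 h2
  have e : z + (w - z) = w := by ring
  rw [e] at h1 h2
  unfold Gq
  rw [h1, h2]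

lemma OT_neg {y : ℂ} (hy : OT L y) : OT L (-y) := by
  obtain ⟨D, hD, hDy⟩ := hy.ex
  refine ⟨fun h' => hy.nm (by simpa using neg_mem h'), D, hD, ?_⟩
  rw [mul_neg]
  exact neg_mem hDy

lemma not_dvd_of_cop {D a : ZI} (hD : IsCoprime D pi1) (ha : pi1 ∣ a) : ¬ a ∣ D := by
  intro h'
  have h1 := hD.isUnit_of_dvd' (ha.trans h') dvd_rfl
  exact pi1_not_dvd (isUnit_iff_dvd_one.1 h1)

section
variable (h : GLat L Ω)
include h

/-- a point of order prime to `1 + i` plus a point of order a power of `1 + i` -/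
lemma OT_nm {y : ℂ} (hy : OT L y) {r a : ZI} (hr : r = 1 ∨ r = -1) (ha0 : a ≠ 0) (ha : pi1 ∣ a) :
    Ω * tc r / tc a + y ∉ L.lattice := by
  intro h'
  obtain ⟨D, hD, hDy⟩ := hy.ex
  have h1 := sub_mem (lat_mul h.lat D h') hDy
  have e : tc D * (Ω * tc r / tc a + y) - tc D * y = Ω * tc (D * r) / tc a := by
    rw [tc_mul]; ring
  rw [e] at h1
  refine div_notMem h.lat ha0 ?_ h1
  rcases hr with rfl | rfl
  · rw [mul_one]; exact not_dvd_of_cop hD ha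
  · rw [mul_neg, mul_one, dvd_neg]; exact not_dvd_of_cop hD ha

lemma OT_dz {y : ℂ} (hy : OT L y) : y - dz Ω ∉ L.lattice ∧ y + dz Ω ∉ L.lattice := by
  have hp : pi1 ∣ two2 := ⟨2, by decide⟩
  constructor
  · have h1 := OT_nm h hy (r := -1) (Or.inr rfl) two2_ne hp
    have e : Ω * tc (-1) / tc two2 + y = y - dz Ω := by
      rw [dz_eq, tc_neg, tc_one]; ring
    rwa [e] at h1
  · have h1 := OT_nm h hy (r := 1) (Or.inl rfl) two2_ne hp
    have e : Ω * tc 1 / tc two2 + y = y + dz Ω := by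
      rw [dz_eq, tc_one]; ring
    rwa [e] at h1

lemma pi_eight : (1 + I) ^ 3 * (Ω / 8) = -dz Ω := by
  rw [dz_eq']
  linear_combination (Ω / 8 * (I + 3)) * I_sq

lemma pi4 : (1 + I) ^ 4 = (-4 : ℂ) := by
  linear_combination (I ^ 2 + 4 * I + 5) * I_sq

lemma eight_nm : (1 + I) ^ 4 * (Ω / 8) ∉ L.lattice := by
  rw [pi4 h]
  have e : (-4 : ℂ) * (Ω / 8) = -(Ω / 2) := by ring
  rw [e]
  intro h'
  exact h.half (by simpa using neg_mem h')

lemma eight_nm' {y : ℂ} (hy : OT L y) : (1 + I) ^ 4 * (Ω / 8 + y) ∉ L.lattice := by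
  have h1 := OT_nm h (hy.pow h 4) (r := -1) (a := 2) (Or.inr rfl) (by decide) ⟨⟨1, -1⟩, by decide⟩
  have e2 : tc (2 : ZI) = 2 := by
    have := tc_int 2
    push_cast at this
    exact this
  have e : Ω * tc (-1) / tc 2 + (1 + I) ^ 4 * y = (1 + I) ^ 4 * (Ω / 8 + y) := by
    rw [tc_neg, tc_one, e2, pi4 h]; ring
  rwa [e] at h1

end

/-- the fourth power of the value at `Ω / 8 + y` -/
lemma Gq_OT (h : GS L Ω) {y : ℂ} (hy : OT L y) :
    Gq L (Ω / 8 + y) ^ 4 * Ph L ((1 + I) ^ 3 * y) = 512 * ℘[L] ((1 + I) ^ 3 * y) ^ 2 := by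
  have h1 := Gq_four h.g (eight_nm' h.g hy)
  have hy' := hy.pow h.g 3
  obtain ⟨n1, n2⟩ := OT_dz h.g hy'
  have h3 := Ph_mul h (hy'.two h.g) n1 n2
  have e : (1 + I) ^ 3 * (Ω / 8 + y) = (1 + I) ^ 3 * y - dz Ω := by
    rw [mul_add, pi_eight h.g]; ring
  rw [h1, e]
  linear_combination (-64) * h3

lemma Gq_eight (h : GS L Ω) : Gq L (Ω / 8) ^ 4 = 512 := by
  rw [Gq_four h.g (eight_nm h.g), pi_eight h.g]
  unfold Ph
  rw [L.weierstrassP_neg, L.derivWeierstrassP_neg, h.g.x0, h.e1, h.y0]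
  linear_combination (-384) * I_sq

section val

variable {Γ : Type*} [LinearOrderedCommGroupWithZero Γ] {v : Valuation ℂ Γ} (h2 : v 2 < 1)
  (h : GS L Ω)

include h2 h

lemma wp_cg {y : ℂ} (hy : OT L y) : Cg v (℘[L] y) 1 :=
  ⟨(wp_one h2 h.g hy).le, by rw [map_one], by
    rw [(wp_sub h2 h.g hy).1]; exact v_pi_lt h2⟩

theorem Gq_val {y : ℂ} (hy : OT L y) :
    v (Gq L (Ω / 8 + y)) ^ 4 = v (1 + I) ^ 15 ∧ v (Gq L (Ω / 8 - y)) ^ 4 = v (1 + I) ^ 15 ∧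
    v (Gq L (Ω / 8)) ^ 4 = v (1 + I) ^ 18 ∧
      Cg v ((Gq L (Ω / 8 + y) + Gq L (Ω / 8 - y)) / Gq L (Ω / 8)) 1 := by
  have hy3 := hy.pow h.g 3
  have hy4 := hy3.pow h.g 1
  have hy5 := hy4.pow h.g 1
  rw [pow_one] at hy4 hy5
  have a1 := Gq_OT h hy
  have a2 := Gq_OT h (OT_neg hy)
  have e : (1 + I) ^ 3 * -y = -((1 + I) ^ 3 * y) := by ring
  rw [e, L.weierstrassP_neg, ← sub_eq_add_neg] at a2
  unfold Ph at a1 a2
  rw [L.weierstrassP_neg, L.derivWeierstrassP_neg, mul_neg, ← sub_eq_add_neg] at a2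
  obtain ⟨m1, -⟩ := h.g.mul_pi (hy3.two h.g)
  obtain ⟨m2, -⟩ := h.g.mul_pi (hy4.two h.g)
  obtain ⟨s1, s2⟩ := wp_sub h2 h.g hy4
  exact sum_val h2 (wp_cg h2 h hy3) (wp_cg h2 h hy4) (wp_cg h2 h hy5) s1 s2 m1.symm m2.symm
    (h.g.eqn hy3.nm) a1 a2 (Gq_eight h)

lemma kap_ne : Gq L (Ω / 8) ≠ 0 := by
  intro h0
  have := Gq_eight h
  rw [h0] at this
  norm_num at this

lemma kap_v : v (Gq L (Ω / 8)) ^ 4 = v (1 + I) ^ 18 := by
  have := congrArg v (Gq_eight h)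
  have e : (512 : ℂ) = 2 ^ 9 := by norm_num
  rw [map_pow, e, map_pow, ← v_pi_sq, ← pow_mul] at this
  exact this

/-- a value times `1 + i` is small -/
lemma Gq_small {y : ℂ} (hy : OT L y) : v ((1 + I) * Gq L (Ω / 8 + y) / Gq L (Ω / 8)) < 1 := by
  obtain ⟨h3, -, h5, -⟩ := Gq_val h2 h hy
  have hg := v_pi_lt h2
  have hg0 := v_pi_ne (v := v)
  by_contra hc
  push Not at hc
  have h6 := one_le_pow₀ hc (n := 4)
  rw [map_div₀, map_mul, div_pow, mul_pow, h3, h5, ← pow_add, one_le_div₀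
    (pow_pos (zero_lt_iff.2 hg0) 18)] at h6
  exact absurd h6 (not_le.2 (pow_lt_pow_right_of_lt_one₀ (zero_lt_iff.2 hg0) hg (by norm_num)))

end val

end Run7.h555.Q4
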