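import Pool.Agent.Run7.h135.Q4A
import Pool.Agent.Run7.h555.Q4.W

/-!
The leading term of the combination of the values of `Gq`.
-/

set_option autoImplicit false
set_option linter.unusedSectionVars false

open Filter Complex
open scoped Topology PeriodPair
open H667R3 hiding sq
open Pool.Agent.TH936.CM Pool.Agent.W192.HK

namespace Run7.h555.Q4

open Pool.Agent.Y699
open H385 (ZI RQ im1 nrm)
open Pool.Agent.H304R3.HK (tc)
open Pool.Agent.W164.RC (tc_mul tc_star two2 prim_iff_dvd)
open Pool.Agent.H304R2.EC.A1 (prim prim_mul prim_cancel prim_one prim_norm_odd prim_star eq_one_of_prim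
  norm_def' re_mul' im_mul' eq_of_dvd prim_ne_zero)
open Pool.Agent.Run7.h135.Q4L (W1 W1_of_dvd W1_of_not WW WW_per QG)

variable {L : PeriodPair} {Ω : ℂ} {ι : Type} [DecidableEq ι] {pr : ι → ZI}

/-! ### counting -/

/-- pairs -/
lemma pair_cg {Γ : Type*} [LinearOrderedCommGroupWithZero Γ] {v : Valuation ℂ Γ} (h2 : v 2 < 1)
    {κ : Type*} [DecidableEq κ] (σ : κ → κ) (hσ : ∀ q, σ (σ q) = q) (F : κ → ℂ) :
    ∀ s : Finset κ, (∀ q ∈ s, σ q ∈ s) → (∀ q ∈ s, σ q ≠ q) →
      (∀ q ∈ s, Cg v (F q + F (σ q)) 1) → Cg v (∑ q ∈ s, F q) (uu ((s.card / 2 : ℕ) : ZMod 2)) := by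
  intro s
  induction s using Finset.strongInduction with
  | H s ih =>
    intro hs hfix hF
    rcases s.eq_empty_or_nonempty with rfl | ⟨a, ha⟩
    · simp only [Finset.sum_empty, Finset.card_empty, Nat.zero_div, Nat.cast_zero, uu_zero]
      exact Cg.refl (by rw [map_zero]; exact zero_le)
    · have hsa := hs a ha
      have hsub : (s.erase a).erase (σ a) ⊂ s :=
        lt_of_le_of_lt (Finset.erase_subset _ _) (Finset.erase_ssubset ha)
      have hmem : ∀ q ∈ (s.erase a).erase (σ a), q ∈ s := fun q hq =>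
        Finset.mem_of_mem_erase (Finset.mem_of_mem_erase hq)
      have hcl : ∀ q ∈ (s.erase a).erase (σ a), σ q ∈ (s.erase a).erase (σ a) := by
        intro q hq
        rw [Finset.mem_erase, Finset.mem_erase] at hq ⊢
        refine ⟨fun h' => hq.2.1 ?_, fun h' => hq.1 ?_, hs q hq.2.2⟩
        · rw [← hσ q, h', hσ]
        · rw [← h', hσ]
      have h1 := ih _ hsub hcl (fun q hq => hfix q (hmem q hq)) (fun q hq => hF q (hmem q hq))
      have h4 : σ a ∈ s.erase a := Finset.mem_erase.2 ⟨hfix a ha, hsa⟩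
      rw [← Finset.add_sum_erase s _ ha, ← Finset.add_sum_erase _ _ h4, ← add_assoc]
      have h5 := (hF a ha).add h1
      refine h5.trans ?_
      have hc : s.card = ((s.erase a).erase (σ a)).card + 2 := by
        rw [Finset.card_erase_of_mem h4, Finset.card_erase_of_mem ha]
        have h6 : 0 < (s.erase a).card := Finset.card_pos.2 ⟨_, h4⟩
        rw [Finset.card_erase_of_mem ha] at h6
        omega
      have h7 : s.card / 2 = 1 + ((s.erase a).erase (σ a)).card / 2 := by omega
      rw [h7]
      push_cast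
      have h8 := (uu_add h2 (1 : ZMod 2) ((((s.erase a).erase (σ a)).card / 2 : ℕ) : ZMod 2)).symm
      rw [uu_one] at h8
      exact_mod_cast h8

/-- quadruples -/
lemma quad_card {κ : Type*} [DecidableEq κ] (σ τ : κ → κ) (hσ : ∀ q, σ (σ q) = q)
    (hτ : ∀ q, τ (τ q) = q) (hc : ∀ q, σ (τ q) = τ (σ q)) :
    ∀ s : Finset κ, (∀ q ∈ s, σ q ∈ s) → (∀ q ∈ s, τ q ∈ s) → (∀ q ∈ s, σ q ≠ q) →
      (∀ q ∈ s, τ q ≠ q) → (∀ q ∈ s, σ q ≠ τ q) → 4 ∣ s.card := by
  intro s
  induction s using Finset.strongInduction with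
  | H s ih =>
    intro h1 h2 h3 h4 h5
    rcases s.eq_empty_or_nonempty with rfl | ⟨a, ha⟩
    · simp
    · set T : Finset κ := {a, σ a, τ a, σ (τ a)} with hT
      have i1 := h1 a ha
      have i2 := h2 a ha
      have i3 := h1 _ i2
      have hTs : T ⊆ s := by
        intro x hx
        rw [hT] at hx
        simp only [Finset.mem_insert, Finset.mem_singleton] at hx
        rcases hx with rfl | rfl | rfl | rfl <;> assumption
      have hT4 : T.card = 4 := by
        have n1 : σ (τ a) ≠ τ a := h3 _ i2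
        have n2 : σ (τ a) ≠ σ a := by
          intro h'
          apply h4 a ha
          rw [← hσ (τ a), h', hσ]
        have n3 : σ (τ a) ≠ a := by
          intro h'
          apply h5 a ha
          rw [← hσ (τ a), h']
        rw [hT, Finset.card_insert_of_notMem, Finset.card_insert_of_notMem,
          Finset.card_insert_of_notMem, Finset.card_singleton]
        · simp only [Finset.mem_singleton]
          exact fun h' => n1 h'.symm
        · simp only [Finset.mem_insert, Finset.mem_singleton, not_or]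
          exact ⟨h5 a ha, fun h' => n2 h'.symm⟩
        · simp only [Finset.mem_insert, Finset.mem_singleton, not_or]
          exact ⟨fun h' => h3 a ha h'.symm, fun h' => h4 a ha h'.symm, fun h' => n3 h'.symm⟩
      have hclT : ∀ x, (x ∈ T ↔ σ x ∈ T) ∧ (x ∈ T ↔ τ x ∈ T) := by
        intro x
        have k1 : ∀ x, x ∈ T → σ x ∈ T := by
          intro x hx
          rw [hT] at hx ⊢
          simp only [Finset.mem_insert, Finset.mem_singleton] at hx ⊢
          rcases hx with rfl | rfl | rfl | rfl
          · tauto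
          · rw [hσ]; tauto
          · tauto
          · rw [hσ]; tauto
        have k2 : ∀ x, x ∈ T → τ x ∈ T := by
          intro x hx
          rw [hT] at hx ⊢
          simp only [Finset.mem_insert, Finset.mem_singleton] at hx ⊢
          rcases hx with rfl | rfl | rfl | rfl
          · tauto
          · rw [← hc]; tauto
          · rw [hτ]; tauto
          · rw [← hc, hτ]; tauto
        refine ⟨⟨k1 x, fun h' => ?_⟩, ⟨k2 x, fun h' => ?_⟩⟩
        · have := k1 _ h'
          rwa [hσ] at this
        · have := k2 _ h'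
          rwa [hτ] at this
      have hss : s \ T ⊂ s := by
        refine Finset.ssubset_iff_subset_ne.2 ⟨Finset.sdiff_subset, fun h' => ?_⟩
        have h6 : a ∈ s \ T := by rw [h']; exact ha
        rw [Finset.mem_sdiff] at h6
        exact h6.2 (by rw [hT]; exact Finset.mem_insert_self _ _)
      have h6 := ih (s \ T) hss
        (fun q hq => by
          rw [Finset.mem_sdiff] at hq ⊢
          exact ⟨h1 q hq.1, fun h' => hq.2 ((hclT q).1.2 h')⟩)
        (fun q hq => by
          rw [Finset.mem_sdiff] at hq ⊢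
          exact ⟨h2 q hq.1, fun h' => hq.2 ((hclT q).2.2 h')⟩)
        (fun q hq => h3 q (Finset.mem_sdiff.1 hq).1) (fun q hq => h4 q (Finset.mem_sdiff.1 hq).1)
        (fun q hq => h5 q (Finset.mem_sdiff.1 hq).1)
      have h7 := Finset.card_sdiff_add_card_eq_card hTs
      rw [hT4] at h7
      rw [← h7]
      exact dvd_add h6 (dvd_refl 4)

/-- the classes on which all the symbols are `± i` -/
def C0 (pr : ι → ZI) (V : Finset ι) (t : ZI) : Prop := ∀ i ∈ V, qr (pr i) (8 * t) = -1

lemma C0_per {V : Finset ι} {a b : ZI} (hab : DD pr V ∣ a - b) : C0 pr V a ↔ C0 pr V b := by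
  unfold C0
  refine forall₂_congr fun i hi => ?_
  have : pr i ∣ 8 * a - 8 * b := by
    rw [← mul_sub]
    exact ((dvd_DD hi).trans hab).mul_left _
  rw [qr_per this]

lemma C0_neg (hp : PF pr) (V : Finset ι) (a : ZI) : C0 pr V (-a) ↔ C0 pr V a := by
  unfold C0
  refine forall₂_congr fun i hi => ?_
  rw [mul_neg, qr_neg (hp.pp i)]

lemma C0_not_dvd {V : Finset ι} {t : ZI} (h : C0 pr V t) {i : ι} (hi : i ∈ V) : ¬ pr i ∣ t := by
  intro h'
  have h1 := h i hi
  rw [qr_zero_iff.2 (h'.mul_left 8)] at h1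
  norm_num at h1

lemma neg_ne (hp : PF pr) {V : Finset ι} (hV : V.Nonempty) {q : RQ (DD pr V)}
    (hq : C0 pr V q.out) : -q ≠ q := by
  intro hqq
  obtain ⟨i, hi⟩ := hV
  have h4 : (2 : RQ (DD pr V)) * q = 0 := by
    rw [two_mul]
    nth_rw 1 [← hqq]
    exact neg_add_cancel q
  have h5 : DD pr V ∣ 2 * q.out := by
    have : Ideal.Quotient.mk (Ideal.span {DD pr V}) (2 * q.out) = 0 := by
      rw [map_mul, Ideal.Quotient.mk_out]
      exact h4
    rwa [Ideal.Quotient.eq_zero_iff_mem, Ideal.mem_span_singleton] at this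
  rcases (hp.pp i).pr.dvd_or_dvd ((dvd_DD hi).trans h5) with h6 | h6
  · exact not_dvd_two (hp.pp i) h6
  · exact C0_not_dvd hq hi h6

open Classical in
/-- the number of the classes for one prime -/
lemma card_one {π : ZI} (h : PP π) [Fintype (RQ π)] :
    2 * (Finset.univ.filter fun q : RQ π => qr π (8 * q.out) = -1).card = nrm π - 1 := by
  letI := h.fld
  have h8 : ¬ π ∣ 8 := by
    intro h'
    have e : (8 : ZI) = 2 * (2 * 2) := by decide
    rw [e] at h'
    rcases h.pr.dvd_or_dvd h' with h1 | h1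
    · exact not_dvd_two h h1
    · rcases h.pr.dvd_or_dvd h1 with h1 | h1 <;> exact not_dvd_two h h1
  have hs : ∑ q : RQ π, qr π (8 * q.out) = 0 := by
    have h1 : ∀ q : RQ π, qr π (8 * q.out) = qr π 8 * quadraticChar (RQ π) q := by
      intro q
      rw [qr_mul h, qr_eq h q.out, Ideal.Quotient.mk_out]
    simp_rw [h1]
    rw [← Finset.mul_sum, quadraticChar_sum_zero h.char, mul_zero]
  have h3 : ∀ q : RQ π, qr π (8 * q.out) = (if q = 0 then 0 else 1) -
      2 * (if qr π (8 * q.out) = -1 then 1 else 0) := by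
    intro q
    by_cases hq : q = 0
    · have h4 : qr π (8 * q.out) = 0 := by
        rw [qr_zero_iff]
        apply Dvd.dvd.mul_left
        rw [← mk_eq_zero, Ideal.Quotient.mk_out]
        exact hq
      rw [h4, if_pos hq]
      norm_num
    · have h4 : ¬ π ∣ 8 * q.out := by
        intro h'
        rcases h.pr.dvd_or_dvd h' with h5 | h5
        · exact h8 h5
        · apply hq
          rw [← mk_eq_zero, Ideal.Quotient.mk_out] at h5
          exact h5
      rw [if_neg hq]
      rcases qr_cases h4 with h5 | h5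
      · rw [h5]; norm_num
      · rw [h5]; norm_num
  rw [Finset.sum_congr rfl fun q _ => h3 q, Finset.sum_sub_distrib, ← Finset.mul_sum,
    Finset.sum_boole] at hs
  have h4 : ∑ q : RQ π, (if q = 0 then (0 : ℤ) else 1) = (nrm π : ℤ) - 1 := by
    have h5 : ∀ q : RQ π, (if q = 0 then (0 : ℤ) else 1) = 1 - (if q = 0 then 1 else 0) := by
      intro q; split_ifs <;> norm_num
    simp_rw [h5]
    rw [Finset.sum_sub_distrib, Finset.sum_ite_eq' Finset.univ (0 : RQ π)]
    simp [card_fin h]
  rw [h4] at hs
  have h6 := h.five_le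
  have h7 := nrm_cast π
  zify [show 1 ≤ nrm π by omega]
  linarith

end Run7.h555.Q4
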