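import Pool.Agent.Run7.h555.Q4.Fl

/-!
The valuations above two of the values of the function `Gq`.
-/

set_option autoImplicit false
set_option linter.unusedSectionVars false

open Filter Complex
open scoped Topology PeriodPair
open H667R3 hiding sq
open Pool.Agent.TH936.CM Pool.Agent.W192.HK

namespace Run7.h555.Q4

open Pool.Agent.Y699
open H385 (ZI RQ im1 nrm)
open Pool.Agent.H304R3.HK (tc)
open Pool.Agent.W164.RC (tc_mul tc_star two2 prim_iff_dvd)
open Pool.Agent.H304R2.EC.A1 (prim prim_mul prim_cancel prim_one prim_norm_odd prim_star eq_one_of_prim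
  norm_def' re_mul' im_mul' eq_of_dvd prim_ne_zero)

variable {L : PeriodPair} {Ω : ℂ}

section val

variable {Γ : Type*} [LinearOrderedCommGroupWithZero Γ] {v : Valuation ℂ Γ}

lemma Cg_one : Cg v 1 1 := Cg.refl (by rw [map_one])

lemma Cg_v_one {x : ℂ} (hx : Cg v x 1) : v x = 1 := by
  have e : x = 1 + (x - 1) := by ring
  rw [e]
  exact v.map_one_add_of_lt hx.s

lemma Cg_sq (h2 : v 2 < 1) {x : ℂ} (hx : Cg v (x ^ 2) 1) : Cg v x 1 := by
  have h1 : v x = 1 := by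
    apply v_pow_one (n := 2) (by norm_num)
    rw [← map_pow]
    exact Cg_v_one hx
  refine ⟨h1.le, by rw [map_one], ?_⟩
  have h3 : v (x - 1) ≤ 1 := v.map_sub_le h1.le (by rw [map_one])
  have h4 : v ((x - 1) ^ 2) < 1 := by
    have e : (x - 1) ^ 2 = (x ^ 2 - 1) + 2 * (1 - x) := by ring
    rw [e]
    refine v.map_add_lt hx.s ?_
    rw [map_mul, v.map_sub_swap]
    exact lt_of_le_of_lt (mul_le_of_le_one_right' h3) h2
  by_contra hc
  push Not at hc
  rw [map_pow] at h4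
  exact absurd h4 (not_lt.2 (one_le_pow₀ hc))

lemma Cg_cancel {x y : ℂ} (hx : v x = 1) (h1 : Cg v (x * y) 1) (h3 : Cg v y 1) : Cg v x 1 := by
  refine ⟨hx.le, by rw [map_one], ?_⟩
  have e : x - 1 = (x * y - 1) - x * (y - 1) := by ring
  rw [e]
  refine v.map_sub_lt h1.s ?_
  rw [map_mul, hx, one_mul]
  exact h3.s

/-- the algebra -/
lemma sum_val (h2 : v 2 < 1) {a b κ x X X2 Y : ℂ} (hx : Cg v x 1) (hX : Cg v X 1)
    (hX2 : Cg v X2 1) (hXs : v (X - 1) = v (1 + I)) (hXa : v (X + 1) = v (1 + I))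
    (r1 : x ^ 2 - 1 = 2 * I * x * X) (r2 : X ^ 2 - 1 = 2 * I * X * X2)
    (hY : Y ^ 2 = 4 * x ^ 3 - 4 * x)
    (ha : a ^ 4 * ((x + I) ^ 2 + (1 + I) * Y) = 512 * x ^ 2)
    (hb : b ^ 4 * ((x + I) ^ 2 - (1 + I) * Y) = 512 * x ^ 2)
    (hκ : κ ^ 4 = 512) :
    v a ^ 4 = v (1 + I) ^ 15 ∧ v b ^ 4 = v (1 + I) ^ 15 ∧ v κ ^ 4 = v (1 + I) ^ 18 ∧
      Cg v ((a + b) / κ) 1 := by
  have hI2 := I_sq
  have vx := Cg_v_one hx
  have vX := Cg_v_one hX
  have hg := v_pi_lt h2
  have hg0 := v_pi_ne (v := v)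
  have v2 : v 2 = v (1 + I) ^ 2 := v_pi_sq.symm
  set g := v (1 + I) with hgdef
  have gp : 0 < g := zero_lt_iff.2 hg0
  have v512 : v (512 : ℂ) = g ^ 18 := by
    have : (512 : ℂ) = 2 ^ 9 := by norm_num
    rw [this, map_pow, v2, ← pow_mul]
  have e1 : (x + I) ^ 2 = 2 * I * x * (X + 1) := by linear_combination r1 + hI2
  have e2 : (x - I) ^ 2 = 2 * I * x * (X - 1) := by linear_combination r1 + hI2
  have v1 : v ((x + I) ^ 2) = g ^ 3 := by
    rw [e1, map_mul, map_mul, map_mul, v_I, vx, hXa, v2, mul_one, mul_one]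
    exact (pow_succ g 2).symm
  have eY : Y ^ 2 = 8 * I * x ^ 2 * X := by
    rw [hY]
    linear_combination (4 * x) * r1
  have v8 : v (8 : ℂ) = g ^ 6 := by
    have : (8 : ℂ) = 2 ^ 3 := by norm_num
    rw [this, map_pow, v2, ← pow_mul]
  have vY : v Y = g ^ 3 := by
    apply v_inj (n := 2) (by norm_num)
    rw [← map_pow, eY, map_mul, map_mul, map_mul, v_I, map_pow, vx, vX, v8, ← pow_mul]
    norm_num
  have vlY : v ((1 + I) * Y) = g ^ 4 := by
    rw [map_mul, vY, ← hgdef]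
    exact (pow_succ' g 3).symm
  have hlt : g ^ 4 < g ^ 3 := pow_lt_pow_right_of_lt_one₀ gp hg (by norm_num)
  set P := (x + I) ^ 2 + (1 + I) * Y with hP
  set M := (x + I) ^ 2 - (1 + I) * Y with hM
  have vP : v P = g ^ 3 := by
    rw [hP, Valuation.map_add_eq_of_lt_left, v1]
    rw [v1, vlY]; exact hlt
  have vM : v M = g ^ 3 := by
    rw [hM, Valuation.map_sub_eq_of_lt_left, v1]
    rw [v1, vlY]; exact hlt
  have ePM : P * M = (x - I) ^ 4 := by
    rw [hP, hM]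
    linear_combination (-(1 + I) ^ 2) * hY + (-4 * x ^ 3 + 8 * I * x + 4 * x) * hI2
  have eX4 : (x - I) ^ 4 = -4 * x ^ 2 * (X - 1) ^ 2 := by
    have : (x - I) ^ 4 = ((x - I) ^ 2) ^ 2 := by ring
    rw [this, e2]
    linear_combination (4 * x ^ 2 * (X - 1) ^ 2) * hI2
  have hx0 : x ≠ 0 := fun h0 => by rw [h0, map_zero] at vx; exact zero_ne_one vx
  have hXm : X - 1 ≠ 0 := fun h0 => by rw [h0, map_zero] at hXs; exact hg0 hXs.symm
  have hP0 : P ≠ 0 := fun h0 => by rw [h0, map_zero] at vP; exact pow_ne_zero 3 hg0 vP.symm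
  have hM0 : M ≠ 0 := fun h0 => by rw [h0, map_zero] at vM; exact pow_ne_zero 3 hg0 vM.symm
  have va : v a ^ 4 = g ^ 15 := by
    have h3 := congrArg v ha
    rw [map_mul, map_pow, vP, map_mul, map_pow, vx, one_pow, mul_one, v512] at h3
    have e : g ^ 18 = g ^ 15 * g ^ 3 := by rw [← pow_add]
    rw [e] at h3
    exact mul_right_cancel₀ (pow_ne_zero 3 hg0) h3
  have vb : v b ^ 4 = g ^ 15 := by
    have h3 := congrArg v hb
    rw [map_mul, map_pow, vM, map_mul, map_pow, vx, one_pow, mul_one, v512] at h3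
    have e : g ^ 18 = g ^ 15 * g ^ 3 := by rw [← pow_add]
    rw [e] at h3
    exact mul_right_cancel₀ (pow_ne_zero 3 hg0) h3
  have vκ : v κ ^ 4 = g ^ 18 := by rw [← map_pow, hκ, v512]
  refine ⟨va, vb, vκ, ?_⟩
  -- the difference of the fourth powers
  have hd : (a ^ 4 - b ^ 4) * (X - 1) ^ 2 = 256 * ((1 + I) * Y) := by
    have h3 : (P * M) * ((a ^ 4 - b ^ 4)) = 512 * x ^ 2 * (M - P) := by
      linear_combination M * ha - P * hb
    have h4 : M - P = -2 * ((1 + I) * Y) := by rw [hP, hM]; ring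
    rw [ePM, eX4, h4] at h3
    have h5 : (-4 * x ^ 2) * ((a ^ 4 - b ^ 4) * (X - 1) ^ 2) =
        (-4 * x ^ 2) * (256 * ((1 + I) * Y)) := by
      linear_combination h3
    exact mul_left_cancel₀ (mul_ne_zero (by norm_num) (pow_ne_zero 2 hx0)) h5
  have v256 : v (256 : ℂ) = g ^ 16 := by
    have : (256 : ℂ) = 2 ^ 8 := by norm_num
    rw [this, map_pow, v2, ← pow_mul]
  have vd : v (a ^ 4 - b ^ 4) = g ^ 18 := by
    have h3 := congrArg v hd
    rw [map_mul, map_pow, hXs, map_mul, v256, vlY, ← pow_add] at h3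
    have e : g ^ (16 + 4) = g ^ 18 * g ^ 2 := by rw [← pow_add]
    rw [e] at h3
    exact mul_right_cancel₀ (pow_ne_zero 2 hg0) h3
  -- the sum
  have vab : v a = v b := v_inj (n := 4) (by norm_num) (by rw [va, vb])
  set S := a + b with hS
  set E := 2 * (S * b) * (2 * S ^ 2 - 3 * (S * b) + 2 * b ^ 2) with hE
  have hS4 : S ^ 4 = (a ^ 4 - b ^ 4) + E := by rw [hE, hS]; ring
  have hsb : v S ≤ v b := by
    rw [hS]
    exact (v.map_add _ _).trans (max_le vab.le le_rfl)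
  have v3 : v (3 : ℂ) ≤ 1 := by
    have := v_nat (v := v) 3
    exact_mod_cast this
  have hE1 : v E ≤ g ^ 2 * (v S * v b) * max (v S * v b) (g ^ 2 * v b ^ 2) := by
    rw [hE, map_mul, map_mul, map_mul, v2]
    refine mul_le_mul_right ?_ _
    refine (v.map_add _ _).trans (max_le ((v.map_sub _ _).trans (max_le ?_ ?_)) ?_)
    · rw [map_mul, map_pow, v2]
      exact le_max_of_le_right (mul_le_mul_right (pow_le_pow_left₀ zero_le hsb 2) _)
    · rw [map_mul, map_mul]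
      exact le_max_of_le_left (mul_le_of_le_one_left' v3)
    · rw [map_mul, map_pow, v2]
      exact le_max_right _ _
  set s := v S with hs
  set β := v b with hβ
  have hβ0 : β ≠ 0 := by
    intro h0
    rw [h0] at vb
    exact pow_ne_zero 15 hg0 (by rw [← vb]; simp)
  have hs4 : s ^ 4 ≤ max (g ^ 18) (v E) := by
    rw [hs, ← map_pow, hS4, ← vd]
    exact v.map_add _ _
  have hsle : s ^ 4 ≤ g ^ 18 := by
    by_contra hc
    push Not at hc
    have hE2 : s ^ 4 ≤ v E := by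
      rcases le_max_iff.1 hs4 with h3 | h3
      · exact absurd hc (not_lt.2 h3)
      · exact h3
    have hs0 : s ≠ 0 := by
      intro h0
      rw [h0] at hc
      exact absurd hc (by simp)
    have h3 : g ^ 2 * β ≤ s := by
      by_contra hc2
      push Not at hc2
      have h4 : s ^ 4 < (g ^ 2 * β) ^ 4 := pow_lt_pow_left₀ hc2 zero_le (by norm_num)
      rw [mul_pow, vb, ← pow_mul, ← pow_add] at h4
      have h5 : g ^ (2 * 4 + 15) ≤ g ^ 18 := pow_le_pow_of_le_one zero_le hg.le (by norm_num)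
      exact absurd (h4.trans_le h5) (not_lt.2 hc.le)
    have h4 : max (s * β) (g ^ 2 * β ^ 2) ≤ s * β := by
      refine max_le le_rfl ?_
      have e : g ^ 2 * β ^ 2 = (g ^ 2 * β) * β := by rw [sq β, mul_assoc]
      rw [e]
      exact mul_le_mul_left h3 _
    have h5 : s ^ 4 ≤ g ^ 2 * (s * β) * (s * β) := hE2.trans (hE1.trans (mul_le_mul_right h4 _))
    have h6 : s ^ 2 ≤ (g * β) ^ 2 := by
      have e1 : s ^ 4 = s ^ 2 * s ^ 2 := by rw [← pow_add]
      have e2 : g ^ 2 * (s * β) * (s * β) = s ^ 2 * (g * β) ^ 2 := by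
        rw [mul_pow, sq s, sq β, sq g]
        ac_rfl
      rw [e1, e2] at h5
      exact le_of_mul_le_mul_left h5 (pow_pos (zero_lt_iff.2 hs0) 2)
    have h7 : s ^ 4 ≤ g ^ 19 := by
      have h8 : (s ^ 2) ^ 2 ≤ ((g * β) ^ 2) ^ 2 := pow_le_pow_left₀ zero_le h6 2
      rw [← pow_mul, ← pow_mul, mul_pow, vb, ← pow_add] at h8
      exact h8
    have h8 : g ^ 19 < g ^ 18 := pow_lt_pow_right_of_lt_one₀ gp hg (by norm_num)
    exact absurd (hc.trans_le h7) (not_lt.2 h8.le)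
  have hElt : v E < g ^ 18 := by
    refine lt_of_le_of_lt hE1 ?_
    rcases max_choice (s * β) (g ^ 2 * β ^ 2) with h3 | h3 <;> rw [h3]
    · by_contra hc
      push Not at hc
      have h4 : (g ^ 18) ^ 2 ≤ (g ^ 2 * (s * β) * (s * β)) ^ 2 := pow_le_pow_left₀ zero_le hc 2
      have e : (g ^ 2 * (s * β) * (s * β)) ^ 2 = g ^ 4 * (s ^ 4 * β ^ 4) := by
        have e1 : g ^ 4 = g ^ 2 * g ^ 2 := by rw [← pow_add]
        have e2 : s ^ 4 = s * s * (s * s) := by rw [← sq, ← sq, ← pow_mul]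
        have e3 : β ^ 4 = β * β * (β * β) := by rw [← sq, ← sq, ← pow_mul]
        rw [e1, e2, e3, sq (g ^ 2 * (s * β) * (s * β))]
        ac_rfl
      rw [e, vb] at h4
      have h5 : g ^ 4 * (s ^ 4 * g ^ 15) ≤ g ^ 4 * (g ^ 18 * g ^ 15) :=
        mul_le_mul_right (mul_le_mul_left hsle _) _
      have h6 : g ^ 4 * (g ^ 18 * g ^ 15) < (g ^ 18) ^ 2 := by
        rw [← pow_add, ← pow_add, ← pow_mul]
        exact pow_lt_pow_right_of_lt_one₀ gp hg (by norm_num)
      exact absurd ((h4.trans h5).trans_lt h6) (lt_irrefl _)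
    · by_contra hc
      push Not at hc
      have h4 : (g ^ 18) ^ 4 ≤ (g ^ 2 * (s * β) * (g ^ 2 * β ^ 2)) ^ 4 :=
        pow_le_pow_left₀ zero_le hc 4
      have e : (g ^ 2 * (s * β) * (g ^ 2 * β ^ 2)) ^ 4 = g ^ 16 * (s ^ 4 * g ^ 45) := by
        have e1 : g ^ 2 * (s * β) * (g ^ 2 * β ^ 2) = g ^ 4 * (s * β ^ 3) := by
          have e3 : β ^ 3 = β * β ^ 2 := pow_succ' β 2
          have e4 : g ^ 4 = g ^ 2 * g ^ 2 := by rw [← pow_add]
          rw [e3, e4]
          ac_rfl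
        rw [e1, mul_pow, mul_pow, ← pow_mul, ← pow_mul]
        congr 2
        have : β ^ (3 * 4) = (β ^ 4) ^ 3 := by rw [← pow_mul]
        rw [this, vb, ← pow_mul]
      rw [e] at h4
      have h5 : g ^ 16 * (s ^ 4 * g ^ 45) ≤ g ^ 16 * (g ^ 18 * g ^ 45) :=
        mul_le_mul_right (mul_le_mul_left hsle _) _
      have h6 : g ^ 16 * (g ^ 18 * g ^ 45) < (g ^ 18) ^ 4 := by
        rw [← pow_add, ← pow_add, ← pow_mul]
        exact pow_lt_pow_right_of_lt_one₀ gp hg (by norm_num)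
      exact absurd ((h4.trans h5).trans_lt h6) (lt_irrefl _)
  -- the main term
  have hκ0 : κ ^ 4 ≠ 0 := by rw [hκ]; norm_num
  have hg18 : g ^ 18 ≠ 0 := pow_ne_zero 18 hg0
  set U := (a ^ 4 - b ^ 4) / κ ^ 4 with hU
  have vU : v U = 1 := by
    rw [hU, map_div₀, vd, map_pow, vκ]
    exact div_self hg18
  set w := (X - 1) / (1 + I) with hw
  have hl0 := one_I_ne
  have w2 : Cg v (w ^ 2) 1 := by
    have h3 : w ^ 2 = X * X2 + I * (X - 1) := by
      rw [hw, div_pow, div_eq_iff (pow_ne_zero 2 hl0)]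
      linear_combination (1) * r2 + (-(X * X2 + I * (X - 1)) - 2 * (X - 1)) * hI2
    rw [h3]
    have h4 := hX.mul hX2
    rw [one_mul] at h4
    have h5 : Cg v (I * (X - 1)) 0 := Cg.zero (by rw [map_mul, v_I, one_mul]; exact hX.s)
    have h6 := h4.add h5
    rwa [add_zero] at h6
  have w4 : Cg v (w ^ 4) 1 := by
    have h3 := w2.mul w2
    rw [one_mul] at h3
    have : w ^ 4 = w ^ 2 * w ^ 2 := by ring
    rwa [this]
  have hUw : U ^ 2 * w ^ 4 = x ^ 2 * X := by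
    have h3 : (U * (X - 1) ^ 2) = (1 + I) * Y / 2 := by
      rw [hU, hκ, div_mul_eq_mul_div, hd]
      ring
    have h4 : U ^ 2 * (X - 1) ^ 4 = (-4) * (x ^ 2 * X) := by
      have : U ^ 2 * (X - 1) ^ 4 = (U * (X - 1) ^ 2) ^ 2 := by ring
      rw [this, h3]
      linear_combination ((1 + I) ^ 2 / 4) * eY + (2 * x ^ 2 * X * (I + 2)) * hI2
    have h5 : (1 + I) ^ 4 = (-4 : ℂ) := by
      linear_combination (I ^ 2 + 4 * I + 5) * hI2
    have h6 : w ^ 4 = (X - 1) ^ 4 / (-4) := by rw [hw, div_pow, h5]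
    rw [h6, ← mul_div_assoc, h4]
    ring
  have hU2 : Cg v (U ^ 2) 1 := by
    refine Cg_cancel (y := w ^ 4) (by rw [map_pow, vU, one_pow]) ?_ w4
    rw [hUw]
    have := (hx.mul hx).mul hX
    rw [one_mul, one_mul] at this
    have e : x ^ 2 * X = x * x * X := by ring
    rwa [e]
  have hU1 := Cg_sq h2 hU2
  have hz4 : Cg v (((S / κ) ^ 2) ^ 2) 1 := by
    have e : ((S / κ) ^ 2) ^ 2 = U + E / κ ^ 4 := by
      rw [← pow_mul, div_pow, hS4, hU]
      ring
    rw [e]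
    have h3 : Cg v (E / κ ^ 4) 0 := Cg.zero (by
      rw [map_div₀, map_pow, vκ, div_lt_one₀ (zero_lt_iff.2 hg18)]
      exact hElt)
    have h4 := hU1.add h3
    rwa [add_zero] at h4
  exact Cg_sq h2 (Cg_sq h2 hz4)

end val

end Run7.h555.Q4
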