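import Pool.Agent.Y715.Om
import Pool.Agent.Run7.h555.Q4.Fg

/-!
The real period of `y² = x³ + N x`, and the normalized lattice.
-/

set_option autoImplicit false
set_option linter.unusedSectionVars false

open Filter Complex Set MeasureTheory
open scoped Topology PeriodPair
open H667R3 hiding sq
open Pool.Agent.TH936.CM Pool.Agent.W192.HK

namespace Run7.h555.Q4

open Pool.Agent.Y699
open H385 (ZI RQ im1 nrm)
open Pool.Agent.H304R3.HK (tc)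
open Pool.Agent.Y715.Om (Om)

/-- the normalized data, with the period up to a fourth root of unity -/
theorem exists_GS_Om : ∃ (L : PeriodPair) (Ω : ℂ), GS L Ω ∧ Ω ^ 4 = ((Om : ℝ) : ℂ) ^ 4 := by
  obtain ⟨L, hL, hg2, hpos⟩ := Pool.Agent.Y715.Om.exists_lat
  have hne : ((Om : ℝ) : ℂ) ≠ 0 := by exact_mod_cast hpos.ne'
  have hlat : IsLat L RG ((Om : ℝ) : ℂ) := by
    refine ⟨hne, fun z => ?_⟩
    rw [hL]
    constructor
    · rintro ⟨r, rfl⟩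
      exact ⟨⟨tc r, mem_RG.2 ⟨r, rfl⟩⟩, rfl⟩
    · rintro ⟨r, rfl⟩
      obtain ⟨a, ha⟩ := mem_RG.1 r.2
      exact ⟨a, by rw [ha]; rfl⟩
  have h : GLat L ((Om : ℝ) : ℂ) := by
    refine ⟨hlat, hg2, ?_⟩
    unfold PeriodPair.g₃
    rw [G6 hlat, mul_zero]
  obtain ⟨Ω', h', h1, h4⟩ : ∃ Ω' : ℂ, GLat L Ω' ∧ ℘[L] (Ω' / 2) = 1 ∧
      Ω' ^ 4 = ((Om : ℝ) : ℂ) ^ 4 := by
    rcases sq_eq_one_iff.1 h.e1_sq with h7 | h7
    · exact ⟨_, h, h7, rfl⟩
    · refine ⟨I * ((Om : ℝ) : ℂ), glat_I h, ?_, ?_⟩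
      · have e : I * ((Om : ℝ) : ℂ) / 2 = I * (((Om : ℝ) : ℂ) / 2) := by ring
        rw [e, wp_I h.lat, h7, neg_neg]
      · rw [mul_pow, I_pow_four, one_mul]
  have h2 : ℘'[L] (dz Ω') ^ 2 = (2 - 2 * I) ^ 2 := by
    rw [h'.y0_sq, h'.x0, h1]
    linear_combination -4 * I_sq
  rcases sq_eq_sq_iff_eq_or_eq_neg.1 h2 with h3 | h3
  · exact ⟨L, Ω', ⟨h', h1, h3⟩, h4⟩
  · refine ⟨L, -Ω', ⟨glat_neg h', ?_, ?_⟩, ?_⟩
    · have e : -Ω' / 2 = -(Ω' / 2) := by ring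
      rw [e, L.weierstrassP_neg, h1]
    · have e : dz (-Ω') = -dz Ω' := by unfold dz; ring
      rw [e, L.derivWeierstrassP_neg, h3, neg_neg]
    · rw [← h4]; ring

theorem Om_pos : 0 < Om := by
  obtain ⟨-, -, -, h⟩ := Pool.Agent.Y715.Om.exists_lat
  exact h

/-- the integrand -/
noncomputable def hh (y : ℝ) : ℝ := 1 / 2 * y ^ (-3 / 4 : ℝ) * (1 - y) ^ (-3 / 4 : ℝ)

lemma hh_integrand {N x : ℝ} (hN : 0 < N) (hx : 0 < x) :
    (|(-(N * (2 * x)) / (x ^ 2 + N) ^ 2)| * hh (N / (x ^ 2 + N))) ^ 4 =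
      N * (1 / √(x ^ 3 + N * x)) ^ 4 := by
  have hA : 0 < x ^ 2 + N := by positivity
  have hy : 1 - N / (x ^ 2 + N) = x ^ 2 / (x ^ 2 + N) := by field_simp; ring
  unfold hh
  rw [hy]
  have e1 : ((N / (x ^ 2 + N)) ^ (-3 / 4 : ℝ)) ^ 4 = ((x ^ 2 + N) / N) ^ 3 := by
    rw [← Real.rpow_natCast, ← Real.rpow_mul (by positivity), ← Real.rpow_natCast ((x ^ 2 + N) / N),
      ← inv_div N, Real.inv_rpow (by positivity), ← Real.rpow_neg (by positivity)]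
    congr 1
    norm_num
  have e2 : ((x ^ 2 / (x ^ 2 + N)) ^ (-3 / 4 : ℝ)) ^ 4 = ((x ^ 2 + N) / x ^ 2) ^ 3 := by
    rw [← Real.rpow_natCast, ← Real.rpow_mul (by positivity), ← Real.rpow_natCast ((x ^ 2 + N) / x ^ 2),
      ← inv_div (x ^ 2), Real.inv_rpow (by positivity), ← Real.rpow_neg (by positivity)]
    congr 1
    norm_num
  have e3 : (√(x ^ 3 + N * x)) ^ 4 = (x ^ 3 + N * x) ^ 2 := by
    have h6 : (√(x ^ 3 + N * x)) ^ 4 = ((√(x ^ 3 + N * x)) ^ 2) ^ 2 := by ring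
    rw [h6, Real.sq_sqrt (by positivity)]
  have e4 : |(-(N * (2 * x)) / (x ^ 2 + N) ^ 2)| = (N * (2 * x)) / (x ^ 2 + N) ^ 2 := by
    rw [neg_div, abs_neg, abs_of_pos (by positivity)]
  rw [e4, div_pow, e3]
  have e5 : (N * (2 * x) / (x ^ 2 + N) ^ 2 * (1 / 2 * (N / (x ^ 2 + N)) ^ (-3 / 4 : ℝ) *
      (x ^ 2 / (x ^ 2 + N)) ^ (-3 / 4 : ℝ))) ^ 4 =
      (N * (2 * x) / (x ^ 2 + N) ^ 2) ^ 4 * (1 / 16) * ((N / (x ^ 2 + N)) ^ (-3 / 4 : ℝ)) ^ 4 *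
        ((x ^ 2 / (x ^ 2 + N)) ^ (-3 / 4 : ℝ)) ^ 4 := by ring
  rw [e5, e1, e2]
  have e6 : x ^ 3 + N * x = x * (x ^ 2 + N) := by ring
  rw [e6]
  field_simp
  norm_num

lemma hh_eq {N x : ℝ} (hN : 0 < N) (hx : 0 < x) :
    |(-(N * (2 * x)) / (x ^ 2 + N) ^ 2)| * hh (N / (x ^ 2 + N)) =
      N ^ (1 / 4 : ℝ) * (1 / √(x ^ 3 + N * x)) := by
  have hA : 0 < x ^ 2 + N := by positivity
  have hy : 1 - N / (x ^ 2 + N) = x ^ 2 / (x ^ 2 + N) := by field_simp; ring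
  have h1 := hh_integrand hN hx
  have h2 : (N ^ (1 / 4 : ℝ)) ^ 4 = N := by
    rw [← Real.rpow_natCast, ← Real.rpow_mul hN.le]
    norm_num
  have h3 : (N ^ (1 / 4 : ℝ) * (1 / √(x ^ 3 + N * x))) ^ 4 = N * (1 / √(x ^ 3 + N * x)) ^ 4 := by
    rw [mul_pow, h2]
  have hp1 : 0 ≤ |(-(N * (2 * x)) / (x ^ 2 + N) ^ 2)| * hh (N / (x ^ 2 + N)) := by
    unfold hh
    rw [hy]
    positivity
  have hp2 : 0 ≤ N ^ (1 / 4 : ℝ) * (1 / √(x ^ 3 + N * x)) := by positivity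
  exact (pow_left_inj₀ hp1 hp2 (by norm_num : (4 : ℕ) ≠ 0)).1 (h1.trans h3.symm)

/-- the integral over the half-line -/
theorem int_half {N : ℝ} (hN : 0 < N) :
    N ^ (1 / 4 : ℝ) * ∫ x in Ioi (0 : ℝ), 1 / √(x ^ 3 + N * x) = ∫ y in Ioo (0 : ℝ) 1, hh y := by
  have himg : (fun x : ℝ => N / (x ^ 2 + N)) '' Ioi (0 : ℝ) = Ioo (0 : ℝ) 1 := by
    ext y
    constructor
    · rintro ⟨x, hx, rfl⟩
      have hx' : (0 : ℝ) < x := hx
      have hA : 0 < x ^ 2 + N := by positivity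
      refine ⟨div_pos hN hA, (div_lt_one hA).2 ?_⟩
      have : 0 < x ^ 2 := by positivity
      linarith
    · rintro ⟨h0, h1⟩
      have h2 : 0 < N / y - N := by
        have : N < N / y := by rw [lt_div_iff₀ h0]; nlinarith
        linarith
      refine ⟨√(N / y - N), Real.sqrt_pos.2 h2, ?_⟩
      show N / (√(N / y - N) ^ 2 + N) = y
      rw [Real.sq_sqrt h2.le, sub_add_cancel, div_div_eq_mul_div, mul_comm, mul_div_assoc, div_self hN.ne',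
        mul_one]
  rw [← himg, integral_image_eq_integral_abs_deriv_smul
    (f' := fun x : ℝ => -(N * (2 * x)) / (x ^ 2 + N) ^ 2) measurableSet_Ioi, ← integral_const_mul]
  · refine setIntegral_congr_fun measurableSet_Ioi fun x hx => ?_
    exact (hh_eq hN hx).symm
  · intro x hx
    have hx' : (0 : ℝ) < x := hx
    have hA : 0 < x ^ 2 + N := by positivity
    have h1 : HasDerivAt (fun x : ℝ => x ^ 2 + N) (2 * x) x := by
      simpa using (hasDerivAt_pow 2 x).add_const N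
    have h2 := (hasDerivAt_const x N).div h1 hA.ne'
    refine HasDerivAt.hasDerivWithinAt (h2.congr_deriv ?_)
    simp
  · intro x hx y hy hxy
    have hx' : (0 : ℝ) < x := hx
    have hy' : (0 : ℝ) < y := hy
    have hA : 0 < x ^ 2 + N := by positivity
    have hB : 0 < y ^ 2 + N := by positivity
    have h3 : N / (x ^ 2 + N) = N / (y ^ 2 + N) := hxy
    rw [div_eq_div_iff hA.ne' hB.ne'] at h3
    have h4 : x ^ 2 = y ^ 2 := by
      have := mul_left_cancel₀ hN.ne' h3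
      linarith
    exact (pow_left_inj₀ hx'.le hy'.le two_ne_zero).1 h4

theorem beta_hh : Complex.betaIntegral (1 / 4) (1 / 4) =
    ((2 * ∫ y in Ioo (0 : ℝ) 1, hh y : ℝ) : ℂ) := by
  unfold Complex.betaIntegral
  rw [intervalIntegral.integral_of_le zero_le_one, integral_Ioc_eq_integral_Ioo,
    ← integral_const_mul, ← integral_complex_ofReal]
  refine setIntegral_congr_fun measurableSet_Ioo fun x hx => ?_
  show (x : ℂ) ^ ((1 / 4 : ℂ) - 1) * (1 - (x : ℂ)) ^ ((1 / 4 : ℂ) - 1) = ((2 * hh x : ℝ) : ℂ)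
  unfold hh
  push_cast
  rw [Complex.ofReal_cpow hx.1.le, Complex.ofReal_cpow (by linarith [hx.2])]
  push_cast
  have h1 : (1 / 4 : ℂ) - 1 = -3 / 4 := by norm_num
  rw [h1]
  ring

theorem int_hh : ∫ y in Ioo (0 : ℝ) 1, hh y = √2 * Om := by
  have h1 := Complex.Gamma_mul_Gamma_eq_betaIntegral (s := 1 / 4) (t := 1 / 4) (by norm_num)
    (by norm_num)
  rw [beta_hh] at h1
  set J := ∫ y in Ioo (0 : ℝ) 1, hh y with hJ
  have h2 : Real.Gamma (1 / 4) * Real.Gamma (1 / 4) = Real.Gamma (1 / 2) * (2 * J) := by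
    have e1 : ((1 / 4 : ℝ) : ℂ) = 1 / 4 := by push_cast; ring
    have e2 : ((1 / 2 : ℝ) : ℂ) = 1 / 4 + 1 / 4 := by push_cast; ring
    rw [← e2, ← e1, Complex.Gamma_ofReal, Complex.Gamma_ofReal] at h1
    exact_mod_cast h1
  have hpi := Real.pi_pos
  have hs2 : √2 * √2 = 2 := Real.mul_self_sqrt (by norm_num)
  have hs2' : 0 < √2 := Real.sqrt_pos.2 (by norm_num)
  have hsp' : 0 < √Real.pi := Real.sqrt_pos.2 hpi
  rw [Real.Gamma_one_half_eq] at h2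
  unfold Om
  rw [Real.sqrt_mul (by norm_num : (0 : ℝ) ≤ 2)]
  have h3 : Real.Gamma (1 / 4) ^ 2 = √Real.pi * (2 * J) := by rw [sq, h2]
  rw [h3]
  field_simp

/-- **the real period** -/
theorem omega_eq {N : ℝ} (hN : 0 < N) :
    (2 * ∫ x in {x : ℝ | 0 < 4 * x ^ 3 + 4 * N * x}, 1 / √(4 * x ^ 3 + 4 * N * x)) =
      √2 * Om / N ^ (1 / 4 : ℝ) := by
  have hset : {x : ℝ | 0 < 4 * x ^ 3 + 4 * N * x} = Ioi (0 : ℝ) := by
    ext x
    rw [Set.mem_ofPred_eq, mem_Ioi]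
    have e : 4 * x ^ 3 + 4 * N * x = x * (4 * (x ^ 2 + N)) := by ring
    have h1 : 0 < 4 * (x ^ 2 + N) := by positivity
    rw [e]
    exact mul_pos_iff_of_pos_right h1
  rw [hset]
  have h2 : ∫ x in Ioi (0 : ℝ), 1 / √(4 * x ^ 3 + 4 * N * x) =
      ∫ x in Ioi (0 : ℝ), (1 / 2) * (1 / √(x ^ 3 + N * x)) := by
    refine setIntegral_congr_fun measurableSet_Ioi fun x hx => ?_
    have e : 4 * x ^ 3 + 4 * N * x = 2 ^ 2 * (x ^ 3 + N * x) := by ring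
    rw [e, Real.sqrt_mul (by norm_num), Real.sqrt_sq (by norm_num)]
    ring
  rw [h2, integral_const_mul]
  have h3 := int_half hN
  rw [int_hh] at h3
  have h4 : 0 < N ^ (1 / 4 : ℝ) := by positivity
  rw [← h3]
  field_simp

/-- **the fourth power of the real period** -/
theorem omega_four {N : ℝ} (hN : 0 < N) :
    0 < (2 * ∫ x in {x : ℝ | 0 < 4 * x ^ 3 + 4 * N * x}, 1 / √(4 * x ^ 3 + 4 * N * x)) ∧
    (2 * ∫ x in {x : ℝ | 0 < 4 * x ^ 3 + 4 * N * x}, 1 / √(4 * x ^ 3 + 4 * N * x)) ^ 4 * N =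
      4 * Om ^ 4 := by
  have h4 : 0 < N ^ (1 / 4 : ℝ) := by positivity
  have h5 := Om_pos
  have h2 : (N ^ (1 / 4 : ℝ)) ^ 4 = N := by
    rw [← Real.rpow_natCast, ← Real.rpow_mul hN.le]
    norm_num
  have h6 : √2 ^ 4 = (4 : ℝ) := by
    have : √2 ^ 4 = (√2 ^ 2) ^ 2 := by ring
    rw [this, Real.sq_sqrt (by norm_num)]
    norm_num
  rw [omega_eq hN]
  refine ⟨by positivity, ?_⟩
  rw [div_pow, mul_pow, h2, h6]
  field_simp

end Run7.h555.Q4
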