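import Mathlib

/-!
The points with nonsingular reduction on `y² = x³ + N x`, at the places dividing `N` exactly once and at
the places of good reduction.
-/

set_option autoImplicit false
set_option linter.unusedSectionVars false

namespace Run7.h555.Tam

open WeierstrassCurve WithZero

section val

variable {L : Type} [Field L] {Γ : Type} [LinearOrderedCommGroupWithZero Γ] (v : Valuation L Γ)

lemma vint (n : ℤ) : v (n : L) ≤ 1 := by
  have key : ∀ m : ℕ, v (m : L) ≤ 1 := by
    intro m
    induction m with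
    | zero => simp
    | succ k ih =>
      push_cast
      exact (v.map_add _ _).trans (max_le ih (by simp))
  rcases Int.eq_nat_or_neg n with ⟨m, rfl | rfl⟩
  · exact_mod_cast key m
  · rw [Int.cast_neg, Valuation.map_neg]
    exact_mod_cast key m

lemma vnat (n : ℕ) : v (n : L) ≤ 1 := by
  have := vint v (n : ℤ)
  exact_mod_cast this

variable {v}

lemma vadd {a b : L} (ha : v a ≤ 1) (hb : v b ≤ 1) : v (a + b) ≤ 1 :=
  (v.map_add _ _).trans (max_le ha hb)

lemma vsub {a b : L} (ha : v a ≤ 1) (hb : v b ≤ 1) : v (a - b) ≤ 1 :=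
  (v.map_sub _ _).trans (max_le ha hb)

lemma vmul {a b : L} (ha : v a ≤ 1) (hb : v b ≤ 1) : v (a * b) ≤ 1 := by
  rw [map_mul]; exact mul_le_one' ha hb

lemma vpow {a : L} (ha : v a ≤ 1) (n : ℕ) : v (a ^ n) ≤ 1 := by
  rw [map_pow]; exact pow_le_one' ha n

lemma vneg {a : L} (ha : v a ≤ 1) : v (-a) ≤ 1 := by
  rw [Valuation.map_neg]; exact ha

lemma vaddl {a b : L} (ha : v a < 1) (hb : v b < 1) : v (a + b) < 1 :=
  v.map_add_lt ha hb

lemma vsubl {a b : L} (ha : v a < 1) (hb : v b < 1) : v (a - b) < 1 :=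
  v.map_sub_lt ha hb

lemma vmull {a b : L} (ha : v a ≤ 1) (hb : v b < 1) : v (a * b) < 1 := by
  rw [map_mul]
  calc v a * v b ≤ 1 * v b := by gcongr
    _ = v b := one_mul _
    _ < 1 := hb

lemma vmulr {a b : L} (ha : v a < 1) (hb : v b ≤ 1) : v (a * b) < 1 := by
  rw [mul_comm]; exact vmull hb ha

lemma vpowl {a : L} (ha : v a < 1) {n : ℕ} (hn : n ≠ 0) : v (a ^ n) < 1 := by
  rw [map_pow]; exact pow_lt_one' ha hn

end val

section alg

variable {L : Type} [Field L] {W : WeierstrassCurve L} {N : L}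

/-- the curve `y² = x³ + N x` -/
structure CN (W : WeierstrassCurve L) (N : L) : Prop where
  k1 : W.a₁ = 0
  k2 : W.a₂ = 0
  k3 : W.a₃ = 0
  k4 : W.a₄ = N
  k6 : W.a₆ = 0
  ne : N ≠ 0
  two : (2 : L) ≠ 0

variable (S : CN W N) [DecidableEq L]

include S in
omit [DecidableEq L] in
lemma CN.eqn {X Y : L} (h : W.toAffine.Equation X Y) : Y ^ 2 = X ^ 3 + N * X := by
  rw [Affine.equation_iff, S.k1, S.k2, S.k3, S.k4, S.k6] at h
  linear_combination h

include S in
omit [DecidableEq L] in
lemma CN.T_ns : W.toAffine.Nonsingular 0 0 := by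
  rw [Affine.nonsingular_iff, Affine.equation_iff, S.k1, S.k2, S.k3, S.k4, S.k6]
  refine ⟨by ring, Or.inl ?_⟩
  intro h
  exact S.ne (by linear_combination -h)

/-- the point `(0, 0)` -/
def Tp : W.toAffine.Point := .some 0 0 S.T_ns

include S in
/-- the product of the three `X`-coordinates on a line is a square -/
theorem line_sq {X₁ Y₁ X₂ Y₂ X₃ Y₃ : L} {h₁ : W.toAffine.Nonsingular X₁ Y₁}
    {h₂ : W.toAffine.Nonsingular X₂ Y₂} {h₃ : W.toAffine.Nonsingular X₃ Y₃}
    (h : (.some X₁ Y₁ h₁ : W.toAffine.Point) + .some X₂ Y₂ h₂ = .some X₃ Y₃ h₃) :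
    ∃ ν : L, X₁ * X₂ * X₃ = ν ^ 2 := by
  have hxy : ¬ (X₁ = X₂ ∧ Y₁ = W.toAffine.negY X₂ Y₂) := by
    rintro ⟨e1, e2⟩
    rw [Affine.Point.add_of_Y_eq e1 e2] at h
    exact Affine.Point.some_ne_zero _ h.symm
  rw [Affine.Point.add_some hxy, Affine.Point.some.injEq] at h
  obtain ⟨hX, -⟩ := h
  have e1 := S.eqn h₁.1
  have e2 := S.eqn h₂.1
  set l := W.toAffine.slope X₁ X₂ Y₁ Y₂ with hl
  have hX' : X₃ = l ^ 2 - X₁ - X₂ := by
    rw [← hX]
    simp only [Affine.addX, S.k1, S.k2]
    ring
  refine ⟨Y₁ - l * X₁, ?_⟩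
  by_cases hx : X₁ = X₂
  · have hy : Y₁ ≠ W.toAffine.negY X₂ Y₂ := fun hc => hxy ⟨hx, hc⟩
    have hyy : Y₁ = Y₂ := by
      rcases Affine.Y_eq_of_X_eq h₁.1 h₂.1 hx with hh | hh
      · exact hh
      · exact absurd hh hy
    have hneg : W.toAffine.negY X₁ Y₁ = -Y₁ := by
      simp only [Affine.negY, S.k1, S.k3]; ring
    have hd : 2 * Y₁ ≠ 0 := by
      intro h0
      apply hy
      rw [← hx, ← hyy, hneg]
      linear_combination h0
    have hs : l * (2 * Y₁) = 3 * X₁ ^ 2 + N := by
      rw [hl, Affine.slope_of_Y_ne hx hy, hneg, S.k1, S.k2, S.k4]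
      have hd' : Y₁ - -Y₁ ≠ 0 := by
        intro h0; apply hd; linear_combination h0
      rw [div_mul_eq_mul_div, div_eq_iff hd']
      ring
    rw [hX', ← hx]
    linear_combination -e1 + X₁ * hs
  · have hx' : X₁ - X₂ ≠ 0 := sub_ne_zero.2 hx
    have hs : l * (X₁ - X₂) = Y₁ - Y₂ := by
      rw [hl, Affine.slope_of_X_ne hx]
      field_simp
    rw [hX']
    apply mul_left_cancel₀ hx'
    have hY2 : Y₂ = Y₁ - l * (X₁ - X₂) := by linear_combination hs
    rw [hY2] at e2
    linear_combination X₂ * e1 - X₁ * e2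

include S in
lemma add_T {X Y : L} (hX : X ≠ 0) (h : W.toAffine.Nonsingular X Y) :
    ∃ (Y' : L) (h' : W.toAffine.Nonsingular (N / X) Y'),
      (.some X Y h : W.toAffine.Point) + Tp S = .some (N / X) Y' h' := by
  have hxy : ¬ (X = 0 ∧ Y = W.toAffine.negY 0 0) := fun hc => hX hc.1
  have e1 := S.eqn h.1
  have hs : W.toAffine.slope X 0 Y 0 = Y / X := by
    rw [Affine.slope_of_X_ne hX, sub_zero, sub_zero]
  have hx : W.toAffine.addX X 0 (W.toAffine.slope X 0 Y 0) = N / X := by
    rw [hs]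
    simp only [Affine.addX, S.k1, S.k2]
    field_simp
    linear_combination e1
  have key := Affine.Point.add_some (W := W.toAffine) hxy (h₁ := h) (h₂ := S.T_ns)
  have h' := (Affine.nonsingular_add (W := W.toAffine) h S.T_ns hxy)
  refine ⟨_, by rw [← hx]; exact h', ?_⟩
  unfold Tp
  rw [key]
  congr 1

include S in
lemma Y_zero {X Y : L} (hX : X = 0) (h : W.toAffine.Nonsingular X Y) : Y = 0 := by
  have e1 := S.eqn h.1
  rw [hX] at e1
  have : Y ^ 2 = 0 := by linear_combination e1
  exact pow_eq_zero_iff two_ne_zero |>.1 this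

include S in
lemma eq_T {X Y : L} (hX : X = 0) (h : W.toAffine.Nonsingular X Y) :
    (.some X Y h : W.toAffine.Point) = Tp S := by
  have hY := Y_zero S hX h
  unfold Tp
  subst hX hY
  rfl

include S in
lemma T_add_T : Tp S + Tp S = 0 := by
  unfold Tp
  apply Affine.Point.add_of_Y_eq rfl
  simp only [Affine.negY, S.k1, S.k3]
  ring

include S in
lemma neg_some' {X Y : L} (h : W.toAffine.Nonsingular X Y) :
    ∃ (h' : W.toAffine.Nonsingular X (-Y)),
      -(.some X Y h : W.toAffine.Point) = .some X (-Y) h' := by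
  have e : W.toAffine.negY X Y = -Y := by
    simp only [Affine.negY, S.k1, S.k3]; ring
  have h' : W.toAffine.Nonsingular X (-Y) := by
    rw [← e]
    exact (Affine.nonsingular_neg X Y).2 h
  refine ⟨h', ?_⟩
  rw [Affine.Point.neg_some]
  congr 1

end alg

section val

variable {L : Type} [Field L] {W : WeierstrassCurve L} {N : L} (S : CN W N) [DecidableEq L]
  (v : Valuation L ℤᵐ⁰)

/-- the `X`-coordinate has even order -/
def EvP (P : W.toAffine.Point) : Prop :=
  ∀ X Y h, P = .some X Y h → ∃ k : ℤ, v X = exp (2 * k)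

lemma exists_exp {x : L} (hx : x ≠ 0) : ∃ m : ℤ, v x = exp m :=
  ⟨(v x).log, (exp_log ((v.ne_zero_iff).2 hx)).symm⟩

lemma exp_sq (m : ℤ) : (exp m : ℤᵐ⁰) ^ 2 = exp (2 * m) := by
  rw [← exp_nsmul]; simp

lemma exp_cube (m : ℤ) : (exp m : ℤᵐ⁰) ^ 3 = exp (3 * m) := by
  rw [← exp_nsmul]; simp

variable {v} (hN : v N = exp (-1))

include hN in
/-- the parity criterion -/
theorem parity {X Y : L} (h : Y ^ 2 = X ^ 3 + N * X) : 1 ≤ v X ↔ ∃ k : ℤ, v X = exp (2 * k) := by
  constructor
  · intro h1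
    rcases h1.eq_or_lt with h2 | h2
    · exact ⟨0, by rw [← h2]; simp⟩
    · have hX0 : X ≠ 0 := by
        rintro rfl
        simp at h1
      obtain ⟨m, hm⟩ := exists_exp v hX0
      have hm0 : 0 < m := by
        rw [hm, ← exp_zero, exp_lt_exp] at h2; exact h2
      have hlt : v (N * X) < v (X ^ 3) := by
        rw [map_pow, hm, exp_cube, map_mul, hm, hN, ← exp_add, exp_lt_exp]; omega
      have h3 : v (Y ^ 2) = v (X ^ 3) := by
        rw [h]
        exact v.map_add_eq_of_lt_left hlt
      have hY0 : Y ≠ 0 := by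
        rintro rfl
        rw [map_pow, map_pow, hm, map_zero, exp_cube] at h3
        exact exp_ne_zero (by rw [← h3]; simp)
      obtain ⟨l, hl⟩ := exists_exp v hY0
      rw [map_pow, map_pow, hm, hl, exp_cube, exp_sq, exp_inj] at h3
      exact ⟨m / 2, by rw [hm, exp_inj]; omega⟩
  · rintro ⟨k, hk⟩
    by_contra h1
    push Not at h1
    rw [hk, ← exp_zero, exp_lt_exp] at h1
    have hX0 : X ≠ 0 := by
      rintro rfl
      rw [map_zero] at hk
      exact exp_ne_zero hk.symm
    have hlt : v (X ^ 2) < v N := by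
      rw [hN, map_pow, hk, exp_sq, exp_lt_exp]; omega
    have h3 : v (X ^ 2 + N) = exp (-1) := by
      rw [v.map_add_eq_of_lt_right hlt, hN]
    have h4 : v (Y ^ 2) = exp (2 * k + -1) := by
      have e : Y ^ 2 = X * (X ^ 2 + N) := by rw [h]; ring
      rw [e, map_mul, h3, hk, ← exp_add]
    have hY0 : Y ≠ 0 := by
      rintro rfl
      rw [map_pow, map_zero] at h4
      exact exp_ne_zero (by rw [← h4]; simp)
    obtain ⟨l, hl⟩ := exists_exp v hY0
    rw [map_pow, hl, exp_sq, exp_inj] at h4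
    omega

include hN in
/-- the subgroup of the points whose `X`-coordinate has even order -/
def EvG : AddSubgroup W.toAffine.Point where
  carrier := {P | EvP v P}
  zero_mem' := by
    intro X Y h e
    exact absurd e.symm (Affine.Point.some_ne_zero _)
  neg_mem' := by
    rintro (_ | ⟨X, Y, h⟩) hP
    · intro X Y h e
      exact absurd e.symm (Affine.Point.some_ne_zero _)
    · intro X' Y' h' e
      obtain ⟨h2, e2⟩ := neg_some' S h
      rw [e2, Affine.Point.some.injEq] at e
      rw [← e.1]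
      exact hP X Y h rfl
  add_mem' := by
    rintro (_ | ⟨X₁, Y₁, h₁⟩) (_ | ⟨X₂, Y₂, h₂⟩) hP hQ
    · exact hP
    · exact hQ
    · exact hP
    · intro X₃ Y₃ h₃ e
      obtain ⟨k₁, e₁⟩ := hP X₁ Y₁ h₁ rfl
      obtain ⟨k₂, e₂⟩ := hQ X₂ Y₂ h₂ rfl
      obtain ⟨ν, hν⟩ := line_sq S e
      have hX3 : X₃ ≠ 0 := by
        intro h0
        rw [eq_T S h0 h₃] at e
        obtain ⟨h1', e1'⟩ := neg_some' S h₁
        have hX1 : X₁ ≠ 0 := by
          rintro rfl
          rw [map_zero] at e₁
          exact exp_ne_zero e₁.symm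
        obtain ⟨Y', h', e'⟩ := add_T S hX1 h1'
        have e3 : (.some X₂ Y₂ h₂ : W.toAffine.Point) = .some (N / X₁) Y' h' := by
          rw [← e', ← e1', ← e]
          abel
        rw [Affine.Point.some.injEq] at e3
        rw [e3.1, map_div₀, hN, e₁, ← exp_sub, exp_inj] at e₂
        omega
      have hν0 : ν ≠ 0 := by
        rintro rfl
        have : X₁ * X₂ * X₃ = 0 := by rw [hν]; ring
        rcases mul_eq_zero.1 this with h0 | h0
        · rcases mul_eq_zero.1 h0 with h0 | h0
          · rw [h0, map_zero] at e₁; exact exp_ne_zero e₁.symm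
          · rw [h0, map_zero] at e₂; exact exp_ne_zero e₂.symm
        · exact hX3 h0
      obtain ⟨m, hm⟩ := exists_exp v hX3
      obtain ⟨l, hl⟩ := exists_exp v hν0
      have h5 := congrArg v hν
      rw [map_mul, map_mul, map_pow, e₁, e₂, hm, hl, exp_sq, ← exp_add, ← exp_add, exp_inj] at h5
      exact ⟨l - k₁ - k₂, by rw [hm, exp_inj]; omega⟩

theorem EvG_index : (EvG S hN).index = 2 := by
  rw [AddSubgroup.index_eq_two_iff]
  refine ⟨Tp S, ?_⟩
  have hT : Tp S ∉ EvG S hN := by
    intro h1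
    obtain ⟨k, hk⟩ := h1 0 0 S.T_ns rfl
    rw [map_zero] at hk
    exact exp_ne_zero hk.symm
  rintro (_ | ⟨X, Y, h⟩)
  · refine Or.inr ⟨(EvG S hN).zero_mem, ?_⟩
    have e : (Affine.Point.zero : W.toAffine.Point) + Tp S = Tp S := zero_add _
    rw [e]
    exact hT
  · by_cases hX : X = 0
    · rw [eq_T S hX h, T_add_T]
      exact Or.inl ⟨(EvG S hN).zero_mem, hT⟩
    · obtain ⟨Y', h', e'⟩ := add_T S hX h
      obtain ⟨m, hm⟩ := exists_exp v hX
      have hv : v (N / X) = exp (-1 - m) := by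
        rw [map_div₀, hN, hm, ← exp_sub]
      have a1 : (.some X Y h : W.toAffine.Point) ∈ EvG S hN ↔ Even m := by
        constructor
        · intro h1
          obtain ⟨k, hk⟩ := h1 X Y h rfl
          rw [hm, exp_inj] at hk
          exact ⟨k, by omega⟩
        · rintro ⟨k, hk⟩ X'' Y'' h'' e''
          rw [Affine.Point.some.injEq] at e''
          exact ⟨k, by rw [← e''.1, hm, exp_inj]; omega⟩
      have a2 : (.some X Y h : W.toAffine.Point) + Tp S ∈ EvG S hN ↔ ¬ Even m := by
        rw [e']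
        constructor
        · intro h1
          obtain ⟨k, hk⟩ := h1 _ _ h' rfl
          rw [hv, exp_inj] at hk
          rintro ⟨j, hj⟩
          omega
        · intro hodd X'' Y'' h'' e''
          rw [Affine.Point.some.injEq] at e''
          rw [Int.not_even_iff_odd] at hodd
          obtain ⟨j, hj⟩ := hodd
          exact ⟨-1 - j, by rw [← e''.1, hv, exp_inj]; omega⟩
      rcases em (Even m) with h1 | h1
      · exact Or.inr ⟨a1.2 h1, fun h2 => a2.1 h2 h1⟩
      · exact Or.inl ⟨a2.2 h1, fun h2 => h1 (a1.1 h2)⟩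

include hN in
/-- the points with nonsingular reduction -/
theorem sing_red {x y : L} (h : y ^ 2 = x ^ 3 + N * x) :
    (1 < v x ∨ v (0 * y - (3 * x ^ 2 + 2 * 0 * x + N)) = 1 ∨ v (2 * y + 0 * x + 0) = 1) ↔
      1 ≤ v x := by
  have e1 : 0 * y - (3 * x ^ 2 + 2 * 0 * x + N) = -(3 * x ^ 2 + N) := by ring
  have e2 : 2 * y + 0 * x + 0 = 2 * y := by ring
  rw [e1, e2, Valuation.map_neg]
  have lN : v N < 1 := by rw [hN, ← exp_zero, exp_lt_exp]; norm_num
  have h3' : v (3 : L) ≤ 1 := by exact_mod_cast vnat v 3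
  have h2' : v (2 : L) ≤ 1 := by exact_mod_cast vnat v 2
  constructor
  · intro hc
    by_contra h1
    push Not at h1
    have hYl : v y < 1 := by
      have : v (y ^ 2) < 1 := by
        rw [h]
        exact vaddl (vpowl h1 three_ne_zero) (vmull lN.le h1)
      rw [map_pow] at this
      by_contra h5
      push Not at h5
      exact absurd this (not_lt.2 (one_le_pow₀ h5))
    rcases hc with hc | hc | hc
    · exact absurd h1.le (not_le.2 hc)
    · have : v (3 * x ^ 2 + N) < 1 := vaddl (vmull h3' (vpowl h1 two_ne_zero)) lN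
      rw [hc] at this
      exact lt_irrefl _ this
    · have : v (2 * y) < 1 := vmull h2' hYl
      rw [hc] at this
      exact lt_irrefl _ this
  · intro h1
    rcases h1.lt_or_eq with h5 | h5
    · exact Or.inl h5
    · right
      have h7' : v (y ^ 2) = 1 := by
        have e : v (x ^ 3) = 1 := by rw [map_pow, ← h5, one_pow]
        rw [h, v.map_add_eq_of_lt_left, e]
        rw [e]
        exact vmulr lN h5.ge
      have h8' : v y = 1 := by
        rw [map_pow] at h7'
        exact (pow_eq_one_iff_of_nonneg zero_le two_ne_zero).1 h7'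
      rcases h2'.lt_or_eq with h6 | h6
      · left
        have h3 : v (3 : L) = 1 := by
          have e : (3 : L) = 1 + 2 := by norm_num
          rw [e]
          exact v.map_one_add_of_lt h6
        have e : v (3 * x ^ 2) = 1 := by rw [map_mul, h3, map_pow, ← h5, one_pow, one_mul]
        rw [v.map_add_eq_of_lt_left, e]
        rw [e]
        exact lN
      · right
        rw [map_mul, h6, h8', one_mul]

include S hN in
/-- the points with nonsingular reduction: index two at a place which divides `N` exactly once -/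
theorem idx_two :
    (AddSubgroup.closure {P : W.toAffine.Point | ∀ x y h, P = Affine.Point.some x y h →
      1 < v x ∨ v (W.a₁ * y - (3 * x ^ 2 + 2 * W.a₂ * x + W.a₄)) = 1 ∨
      v (2 * y + W.a₁ * x + W.a₃) = 1}).index = 2 := by
  rw [S.k1, S.k2, S.k3, S.k4]
  have hset : {P : W.toAffine.Point | ∀ x y h, P = Affine.Point.some x y h →
      1 < v x ∨ v (0 * y - (3 * x ^ 2 + 2 * 0 * x + N)) = 1 ∨
      v (2 * y + 0 * x + 0) = 1} = (EvG S hN : Set W.toAffine.Point) := by
    apply Set.ext
    intro P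
    constructor
    · intro hP
      rcases P with _ | ⟨x, y, h⟩
      · exact (EvG S hN).zero_mem
      · have h1 := hP x y h rfl
        rw [sing_red hN (S.eqn h.1)] at h1
        obtain ⟨k, hk⟩ := (parity hN (S.eqn h.1)).1 h1
        intro X Y h' e'
        rw [Affine.Point.some.injEq] at e'
        rw [← e'.1]
        exact ⟨k, hk⟩
    · intro hP x y h e
      rw [sing_red hN (S.eqn h.1), parity hN (S.eqn h.1)]
      rw [e] at hP
      exact hP _ _ h rfl
  have key : AddSubgroup.closure {P : W.toAffine.Point | ∀ x y h, P = Affine.Point.some x y h →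
      1 < v x ∨ v (0 * y - (3 * x ^ 2 + 2 * 0 * x + N)) = 1 ∨
      v (2 * y + 0 * x + 0) = 1} = EvG S hN := by
    rw [hset]
    exact AddSubgroup.closure_eq _
  rw [key]
  exact EvG_index S hN

end val

section val2

variable {L : Type} [Field L] {W : WeierstrassCurve L} {N : L} (S : CN W N) [DecidableEq L]
  {Γ : Type} [LinearOrderedCommGroupWithZero Γ] {v : Valuation L Γ}

/-- good reduction -/
theorem good_red (h2 : v (2 : L) = 1) (hN : v N = 1) {x y : L} (h : y ^ 2 = x ^ 3 + N * x)
    (hx : v x ≤ 1) : v (3 * x ^ 2 + N) = 1 ∨ v (2 * y) = 1 := by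
  have h3' : v (3 : L) ≤ 1 := by exact_mod_cast vnat v 3
  have hy : v y ≤ 1 := by
    have h4 : v (y ^ 2) ≤ 1 := by
      rw [h]
      exact vadd (vpow hx 3) (vmul hN.le hx)
    rw [map_pow] at h4
    by_contra h5
    push Not at h5
    exact absurd h4 (not_le.2 (one_lt_pow₀ h5 two_ne_zero))
  rcases hy.lt_or_eq with h4 | h4
  · left
    have h5 : v (x * (x ^ 2 + N)) < 1 := by
      have e : x * (x ^ 2 + N) = y ^ 2 := by rw [h]; ring
      rw [e]
      exact vpowl h4 two_ne_zero
    rcases hx.lt_or_eq with h6 | h6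
    · have h7 : v (3 * x ^ 2) < v N := by
        rw [hN]
        exact vmull h3' (vpowl h6 two_ne_zero)
      rw [v.map_add_eq_of_lt_right h7, hN]
    · rw [map_mul, h6, one_mul] at h5
      have e : 3 * x ^ 2 + N = 3 * (x ^ 2 + N) - 2 * N := by ring
      have h8 : v (2 * N) = 1 := by rw [map_mul, h2, hN, one_mul]
      rw [e, v.map_sub_eq_of_lt_right, h8]
      rw [h8]
      exact vmull h3' h5
  · right
    rw [map_mul, h2, h4, one_mul]

include S in
/-- the points with nonsingular reduction at a place of good reduction -/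
theorem idx_one (h2 : v (2 : L) = 1) (hN : v N = 1) :
    (AddSubgroup.closure {P : W.toAffine.Point | ∀ x y h, P = Affine.Point.some x y h →
      1 < v x ∨ v (W.a₁ * y - (3 * x ^ 2 + 2 * W.a₂ * x + W.a₄)) = 1 ∨
      v (2 * y + W.a₁ * x + W.a₃) = 1}).index = 1 := by
  rw [S.k1, S.k2, S.k3, S.k4, AddSubgroup.index_eq_one]
  have e : {P : W.toAffine.Point | ∀ x y h, P = Affine.Point.some x y h →
      1 < v x ∨ v (0 * y - (3 * x ^ 2 + 2 * 0 * x + N)) = 1 ∨
      v (2 * y + 0 * x + 0) = 1} = Set.univ := by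
    rw [Set.eq_univ_iff_forall]
    intro P x y h _
    rcases lt_or_ge 1 (v x) with hx | hx
    · exact Or.inl hx
    · right
      have e1 : 0 * y - (3 * x ^ 2 + 2 * 0 * x + N) = -(3 * x ^ 2 + N) := by ring
      have e2 : 2 * y + 0 * x + 0 = 2 * y := by ring
      rw [e1, e2, Valuation.map_neg]
      exact good_red h2 hN (S.eqn h.1) hx
  rw [e]
  exact AddSubgroup.closure_univ

end val2

end Run7.h555.Tam
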